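import Pool.Agent.H829.EG.Path

/-!
# Homeomorphisms of bounded type: the action on the points
-/

namespace Pool.Agent.H829.EG.Path

open Pool.Agent.N506.EX Topology

universe u v

/-- The trivial action is extensively exact. -/
theorem punit_extensivelyExact (G : Type u) [Group G] (_i : MulAction G PUnit.{v + 1}) :
    ExtensivelyExact G PUnit.{v + 1} := by
  classical
  intro S E₀ ε hε
  refine ⟨{Finset.univ}, fun _ => Finsupp.single Finset.univ 1, ?_, ?_, ?_, ?_⟩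
  · intro g A
    rw [Finsupp.single_apply]
    split_ifs <;> norm_num
  · intro g
    rw [Finsupp.sum_single_index rfl]
  · intro g A hA
    have h1 : A = Finset.univ := by
      by_contra hcon
      rw [Finsupp.single_apply, if_neg (Ne.symm hcon)] at hA
      exact hA rfl
    subst h1
    exact ⟨⟨Finset.univ, Finset.mem_singleton_self _, fun x => by simp⟩, fun x _ => Finset.mem_univ _⟩
  · intro g s _
    rw [sub_self, Finsupp.sum_zero_index]
    exact hε.le

section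

variable {G : Type u} {α : ℕ → Type v} {X : Set ((n : ℕ) → α n)} [Group G] [MulAction G X]

/-- The points whose tail behind level `n` is the tail of a point of `T₀`. -/
def Fs (T₀ : Finset X) (n : ℕ) : Set X := {x | ∃ y ∈ T₀, ∀ i, n ≤ i → x.1 i = y.1 i}

theorem Fs_mono (T₀ : Finset X) {n m : ℕ} (h : n ≤ m) : Fs T₀ n ⊆ Fs T₀ m := by
  rintro x ⟨y, hy, hxy⟩
  exact ⟨y, hy, fun i hi => hxy i (h.trans hi)⟩

theorem Fs_finite [∀ n, Finite (α n)] (T₀ : Finset X) (n : ℕ) : (Fs T₀ n).Finite := by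
  classical
  have h1 : (Set.univ ×ˢ (T₀ : Set X) : Set (((i : Fin n) → α i.1) × X)).Finite :=
    Set.finite_univ.prod T₀.finite_toSet
  have hch : ∀ x : Fs T₀ n, ∃ y : X, y ∈ T₀ ∧ ∀ i, n ≤ i → x.1.1 i = y.1 i := fun x => x.2
  choose f hf1 hf2 using hch
  have hfin : Finite (Set.univ ×ˢ (T₀ : Set X) : Set (((i : Fin n) → α i.1) × X)) := h1
  refine Finite.of_injective (fun x : Fs T₀ n =>
    (⟨(pre n x.1, f x), Set.mem_univ _, hf1 x⟩ :
      (Set.univ ×ˢ (T₀ : Set X) : Set (((i : Fin n) → α i.1) × X)))) ?_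
  intro x y hxy
  have h2 : (pre n x.1, f x) = (pre n y.1, f y) := congrArg Subtype.val hxy
  have h3 := congrArg Prod.fst h2
  have h4 := congrArg Prod.snd h2
  apply Subtype.ext
  apply Subtype.ext
  funext i
  rcases lt_or_ge i n with hi | hi
  · exact congrFun h3 ⟨i, hi⟩
  · have h5 : f x = f y := h4
    rw [hf2 x i hi, hf2 y i hi, h5]

theorem bad_encard (T₀ : Finset X) (s : G) (n C : ℕ)
    (h : (singularWords (X := X) s n).encard ≤ C) :
    ({x : X | x ∈ Fs T₀ n ∧ s • x ∉ Fs T₀ n}).encard ≤ ((C * T₀.card : ℕ) : ℕ∞) := by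
  classical
  have hch : ∀ x : X, ∃ y : X, x ∈ Fs T₀ n → y ∈ T₀ ∧ ∀ i, n ≤ i → x.1 i = y.1 i := by
    intro x
    by_cases hx : x ∈ Fs T₀ n
    · obtain ⟨y, hy⟩ := hx
      exact ⟨y, fun _ => hy⟩
    · exact ⟨x, fun hx' => absurd hx' hx⟩
  choose f hf using hch
  have hinj : Set.InjOn (fun x : X => (pre n x, f x)) {x : X | x ∈ Fs T₀ n ∧ s • x ∉ Fs T₀ n} := by
    rintro x ⟨hx, -⟩ y ⟨hy, -⟩ hxy
    have h3 : pre n x = pre n y := congrArg Prod.fst hxy
    have h4 : f x = f y := congrArg Prod.snd hxy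
    apply Subtype.ext
    funext i
    rcases lt_or_ge i n with hi | hi
    · exact congrFun h3 ⟨i, hi⟩
    · rw [(hf x hx).2 i hi, (hf y hy).2 i hi, h4]
  have h1 : (fun x : X => (pre n x, f x)) '' {x : X | x ∈ Fs T₀ n ∧ s • x ∉ Fs T₀ n} ⊆
      singularWords (X := X) s n ×ˢ (T₀ : Set X) := by
    rintro _ ⟨x, ⟨hx, hx'⟩, rfl⟩
    refine ⟨pre_mem fun hreg => hx' ?_, (hf x hx).1⟩
    refine ⟨f x, (hf x hx).1, fun i hi => ?_⟩
    rw [hreg.self i hi]
    exact (hf x hx).2 i hi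
  rw [← hinj.encard_image]
  refine (Set.encard_le_encard h1).trans ?_
  rw [Set.encard_prod, Set.encard_coe_eq_coe_finsetCard, Nat.cast_mul]
  exact mul_le_mul_left h _

theorem exists_T₀ (hb : BoundedType G X) (S' : Finset G) (E₀ : Finset X) :
    ∃ T₀ : Finset X, E₀ ⊆ T₀ ∧ ∀ s ∈ S', ∀ n, ∀ x ∈ Fs T₀ n, ∃ n', s • x ∈ Fs T₀ n' := by
  classical
  let Q : Finset X := S'.biUnion fun s => (sing_finite (X := X) hb s).toFinset.image fun x => s • x
  refine ⟨E₀ ∪ Q, Finset.subset_union_left, ?_⟩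
  rintro s hs n x ⟨y, hy, hxy⟩
  by_cases hx : x ∈ Sing (X := X) s
  · refine ⟨0, s • x, Finset.mem_union_right _ (Finset.mem_biUnion.mpr ⟨s, hs, ?_⟩), fun _ _ => rfl⟩
    exact Finset.mem_image_of_mem _ ((Set.Finite.mem_toFinset _).mpr hx)
  · have h1 : ∃ k, RegularAt s k x := by
      by_contra hcon
      push Not at hcon
      exact hx hcon
    obtain ⟨k, hk⟩ := h1
    refine ⟨max n k, y, hy, fun i hi => ?_⟩
    rw [hk.self i ((le_max_right _ _).trans hi)]
    exact hxy i ((le_max_left _ _).trans hi)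

theorem exists_levels (hb : BoundedType G X) (S' : Finset G) (E₀ : Finset X) :
    ∃ (T₀ : Finset X) (C : ℕ) (φ : ℕ → ℕ), E₀ ⊆ T₀ ∧ Monotone φ ∧
      (∀ k, ∀ s ∈ S', ({x : X | x ∈ Fs T₀ (φ k) ∧ s • x ∉ Fs T₀ (φ k)}).encard ≤ C) ∧
      ∀ k, ∀ s ∈ S', ∀ x ∈ Fs T₀ (φ k), s • x ∈ Fs T₀ (φ (k + 1)) := by
  classical
  obtain ⟨T₀, hE₀, hT₀⟩ := exists_T₀ hb S' E₀
  obtain ⟨C, hC⟩ := hb S'
  have hB : ∀ n, (∀ s ∈ S', (singularWords (X := X) s n).encard ≤ C) →
      ∃ n', n ≤ n' ∧ (∀ s ∈ S', (singularWords (X := X) s n').encard ≤ C) ∧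
        ∀ s ∈ S', ∀ x ∈ Fs T₀ n, s • x ∈ Fs T₀ n' := by
    intro n hn
    have h1 : ∀ s ∈ S', ∃ k, n ≤ k ∧ ∀ x ∈ Fs T₀ n, s • x ∈ Fs T₀ k := by
      intro s hs
      have h2 : ({x : X | x ∈ Fs T₀ n ∧ s • x ∉ Fs T₀ n}).Finite := by
        rw [← Set.encard_lt_top_iff]
        exact (bad_encard T₀ s n C (hn s hs)).trans_lt (ENat.natCast_lt_top _)
      have h3 : ∀ x : X, ∃ k, x ∈ Fs T₀ n → s • x ∈ Fs T₀ k := by
        intro x
        by_cases hx : x ∈ Fs T₀ n
        · obtain ⟨k, hk⟩ := hT₀ s hs n x hx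
          exact ⟨k, fun _ => hk⟩
        · exact ⟨0, fun h => absurd h hx⟩
      choose k hk using h3
      refine ⟨max n (h2.toFinset.sup k), le_max_left _ _, fun x hx => ?_⟩
      by_cases hsx : s • x ∈ Fs T₀ n
      · exact Fs_mono T₀ (le_max_left _ _) hsx
      · refine Fs_mono T₀ ((Finset.le_sup (f := k) ?_).trans (le_max_right _ _)) (hk x hx)
        exact (Set.Finite.mem_toFinset _).mpr ⟨hx, hsx⟩
    choose! k hk1 hk2 using h1
    obtain ⟨n', hn', hn''⟩ := hC (max n (S'.sup k))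
    refine ⟨n', (le_max_left _ _).trans hn', hn'', fun s hs x hx => ?_⟩
    refine Fs_mono T₀ ?_ (hk2 s hs x hx)
    exact (Finset.le_sup (f := k) hs).trans ((le_max_right _ _).trans hn')
  choose! f hf1 hf2 hf3 using hB
  obtain ⟨n₀, -, hn₀⟩ := hC 0
  let φ : ℕ → ℕ := fun k => Nat.rec n₀ (fun _ r => f r) k
  have hφ : ∀ k, ∀ s ∈ S', (singularWords (X := X) s (φ k)).encard ≤ C := by
    intro k
    induction k with
    | zero => exact hn₀
    | succ k ih => exact hf2 _ ih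
  refine ⟨T₀, C * T₀.card, φ, hE₀, monotone_nat_of_le_succ fun k => hf1 _ (hφ k), ?_, ?_⟩
  · intro k s hs
    exact bad_encard T₀ s (φ k) C (hφ k s hs)
  · intro k s hs x hx
    exact hf3 _ (hφ k) s hs x hx

theorem path_extensivelyExact [∀ n, Finite (α n)] (hb : BoundedType G X) :
    ExtensivelyExact G X := by
  refine of_levels.{u, v, 0} fun S' E₀ => ?_
  obtain ⟨T₀, C, φ, hE₀, hφ, hbad, hstep⟩ := exists_levels hb S' E₀
  refine ⟨fun k => Fs T₀ (φ k), C, fun i j hij => Fs_mono T₀ (hφ hij),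
    fun x hx => ⟨x, hE₀ hx, fun _ _ => rfl⟩, hbad, hstep, fun k => ?_⟩
  let act : MulAction G PUnit.{1} :=
    { smul := fun _ x => x
      one_smul := fun _ => rfl
      mul_smul := fun _ _ _ => rfl }
  refine ⟨PUnit.{1}, act, fun _ => PUnit.unit, fun _ _ => rfl, punit_extensivelyExact G act,
    fun v => ?_⟩
  exact (Fs_finite T₀ (φ k)).subset fun x hx => hx.1

/-- **Main theorem.** -/
theorem path_exact [(n : ℕ) → TopologicalSpace (α n)] [∀ n, DiscreteTopology (α n)]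
    [∀ n, Finite (α n)] [ContinuousConstSMul G X] [FaithfulSMul G X] (hX : IsClosed X)
    (hb : BoundedType G X) (hgerm : ∀ x : X, IsExact (GermGroup G x)) : IsExact G := by
  refine Ex.isExact ?_
  exact ex_of_offSubgroup (tailGpd X G hb) (path_extensivelyExact hb)
    (off_ex hX hb (fun x => (hgerm x).ex))

end

end Pool.Agent.H829.EG.Path
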