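import Mathlib

/-!
# Cofinite subgroupoids of action groupoids, extensively exact actions
-/

namespace Pool.Agent.H829.EG

universe u v

/-- A cofinite subgroupoid of the action groupoid of `G` on `X`. -/
structure CofiniteSubgroupoid (G : Type u) (X : Type v) [Group G] [MulAction G X] where
  /-- the arrow from `x` to `g • x` given by `g` belongs to the subgroupoid -/
  Mem : G → X → Prop
  one : ∀ x, Mem 1 x
  inv : ∀ g x, Mem g x → Mem g⁻¹ (g • x)
  mul : ∀ g h x, Mem h x → Mem g (h • x) → Mem (g * h) x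
  cofinite : ∀ g, {x | ¬ Mem g x}.Finite

/-- The elements that preserve the finite set `E` and all of whose arrows off `E` lie in the
subgroupoid. -/
def CofiniteSubgroupoid.offSubgroup {G : Type u} {X : Type v} [Group G] [MulAction G X]
    (H : CofiniteSubgroupoid G X) (E : Finset X) : Subgroup G where
  carrier := {g | (∀ x, g • x ∈ E ↔ x ∈ E) ∧ ∀ x, x ∉ E → H.Mem g x}
  one_mem' := ⟨fun x => by rw [one_smul], fun x _ => H.one x⟩
  mul_mem' := by
    rintro g h ⟨hg, hg'⟩ ⟨hh, hh'⟩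
    refine ⟨fun x => by rw [mul_smul, hg, hh], fun x hx => ?_⟩
    exact H.mul g h x (hh' x hx) (hg' _ (fun h3 => hx ((hh x).mp h3)))
  inv_mem' := by
    rintro g ⟨hg, hg'⟩
    refine ⟨fun x => ?_, fun x hx => ?_⟩
    · rw [← hg (g⁻¹ • x), smul_inv_smul]
    · have h1 : g⁻¹ • x ∉ E := by
        rw [← hg (g⁻¹ • x), smul_inv_smul]
        exact hx
      have h2 := H.inv g _ (hg' _ h1)
      rwa [smul_inv_smul] at h2

/-- Extensively exact actions. -/
def ExtensivelyExact (G : Type u) (X : Type v) [Group G] [MulAction G X] : Prop :=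
  ∀ (S : Finset G) (E₀ : Finset X) (ε : ℝ), 0 < ε →
    ∃ (T : Finset (Finset X)) (m : G → Finset X →₀ ℝ),
      (∀ g A, 0 ≤ m g A) ∧ (∀ g, ((m g).sum fun _ t => t) = 1) ∧
      (∀ g A, m g A ≠ 0 → (∃ A₀ ∈ T, ∀ x, g • x ∈ A ↔ x ∈ A₀) ∧ ∀ x ∈ E₀, g • x ∈ A) ∧
      ∀ g, ∀ s ∈ S, ((m g - m (g * s)).sum fun _ t => |t|) ≤ ε

end Pool.Agent.H829.EG
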