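import Pool.Graph.R_pool_sql_team_seeded_63374d34.N506.EXL

/-!
# A fibration principle for exactness
-/

namespace Pool.Agent.H829.EG

open Pool.Agent.N506.EX

universe u v w

/-- A witness family for exactness with sample space `Ω`. -/
def Wo (Ω : Type) [Fintype Ω] (G : Type u) [Group G] (F : Set G) (ε : ℝ) (E : Set G) : Prop :=
  ∃ (Y : Type u) (a : G → Ω → Y),
    (∀ g, ∀ s ∈ F, ∃ (W : Finset Ω) (p : Ω → Ω), Set.InjOn p W ∧
      (∀ w ∈ W, a g w = a (g * s) (p w)) ∧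
      (1 - ε) * (Fintype.card Ω : ℝ) ≤ (W.card : ℝ)) ∧
    ∀ g h w w', a g w = a h w' → g⁻¹ * h ∈ E

theorem Wo.prod_left {Ω Ω' : Type} [Fintype Ω] [Fintype Ω'] {G : Type u} [Group G] {F : Set G}
    {ε : ℝ} {E : Set G} (h : Wo Ω G F ε E) : Wo (Ω × Ω') G F ε E := by
  classical
  obtain ⟨Y, a, h1, h2⟩ := h
  refine ⟨Y, fun g w => a g w.1, ?_, fun g h w w' hh => h2 g h _ _ hh⟩
  intro g s hs
  obtain ⟨W, p, hp, hW, hc⟩ := h1 g s hs
  refine ⟨W ×ˢ Finset.univ, fun w => (p w.1, w.2), ?_, ?_, ?_⟩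
  · intro x hx y hy hxy
    simp only [Finset.coe_product, Set.mem_prod, Finset.mem_coe] at hx hy
    simp only [Prod.mk.injEq] at hxy
    exact Prod.ext (hp hx.1 hy.1 hxy.1) hxy.2
  · intro w hw
    rw [Finset.mem_product] at hw
    exact hW _ hw.1
  · rw [Fintype.card_prod, Finset.card_product, Finset.card_univ]
    push_cast
    rw [← mul_assoc]
    exact mul_le_mul_of_nonneg_right hc (Nat.cast_nonneg _)

theorem Wo.prod_right {Ω Ω' : Type} [Fintype Ω] [Fintype Ω'] {G : Type u} [Group G] {F : Set G}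
    {ε : ℝ} {E : Set G} (h : Wo Ω G F ε E) : Wo (Ω' × Ω) G F ε E := by
  classical
  obtain ⟨Y, a, h1, h2⟩ := h
  refine ⟨Y, fun g w => a g w.2, ?_, fun g h w w' hh => h2 g h _ _ hh⟩
  intro g s hs
  obtain ⟨W, p, hp, hW, hc⟩ := h1 g s hs
  refine ⟨Finset.univ ×ˢ W, fun w => (w.1, p w.2), ?_, ?_, ?_⟩
  · intro x hx y hy hxy
    simp only [Finset.coe_product, Set.mem_prod, Finset.mem_coe] at hx hy
    simp only [Prod.mk.injEq] at hxy
    exact Prod.ext hxy.1 (hp hx.2 hy.2 hxy.2)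
  · intro w hw
    rw [Finset.mem_product] at hw
    exact hW _ hw.2
  · rw [Fintype.card_prod, Finset.card_product, Finset.card_univ]
    push_cast
    have := mul_le_mul_of_nonneg_left hc (Nat.cast_nonneg (α := ℝ) (Fintype.card Ω'))
    nlinarith

theorem Wo.trivial {Ω : Type} [Fintype Ω] {G : Type u} [Group G] {F : Set G}
    {ε : ℝ} (hε : 0 < ε) : Wo Ω G F ε Set.univ := by
  refine ⟨PUnit, fun _ _ => PUnit.unit, ?_, fun _ _ _ _ _ => Set.mem_univ _⟩
  intro g s _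
  refine ⟨Finset.univ, id, Function.injective_id.injOn, fun _ _ => rfl, ?_⟩
  rw [Finset.card_univ]
  have : (0:ℝ) ≤ (Fintype.card Ω : ℝ) := Nat.cast_nonneg _
  nlinarith

/-- A common sample space for finitely many exact groups. -/
theorem common {Z : Type v} (Gs : Z → Type u) [∀ z, Group (Gs z)] (P : Finset Z)
    (F : ∀ z, Set (Gs z)) (hF : ∀ z, (F z).Finite) (hP : ∀ z ∈ P, Ex (Gs z)) {ε : ℝ}
    (hε : 0 < ε) :
    ∃ (Ω : Type) (_ : Fintype Ω) (_ : Nonempty Ω), ∀ z, ∃ E : Set (Gs z), (z ∈ P → E.Finite) ∧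
      Wo Ω (Gs z) (F z) ε E := by
  classical
  induction P using Finset.induction_on with
  | empty =>
    refine ⟨Unit, inferInstance, inferInstance, fun z => ⟨Set.univ, fun h => ?_, Wo.trivial hε⟩⟩
    simp at h
  | insert i P hi ih =>
    obtain ⟨Ω, _, _, h⟩ := ih fun z hz => hP z (Finset.mem_insert_of_mem hz)
    obtain ⟨E, hE, Ω', _, _, Y, a, h1, h2⟩ := hP i (Finset.mem_insert_self _ _) (F i) (hF i) ε hε
    refine ⟨Ω × Ω', inferInstance, inferInstance, fun z => ?_⟩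
    by_cases hz : z = i
    · subst hz
      exact ⟨E, fun _ => hE, Wo.prod_right ⟨Y, a, h1, fun g h w w' hh => h2 g h w w' hh trivial⟩⟩
    · obtain ⟨E', hE', hW⟩ := h z
      exact ⟨E', fun hz' => hE' (Finset.mem_of_mem_insert_of_ne hz' hz), hW.prod_left⟩

/-- **Fibration principle.** -/
theorem Ex.fibration {G : Type u} [Group G] {Z : Type v} [MulAction G Z]
    (H : ∀ F : Set G, F.Finite → ∀ ε : ℝ, 0 < ε →
      ∃ (Ω : Type) (_ : Fintype Ω) (_ : Nonempty Ω) (P : Finset Z) (b : G → Ω → Z),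
      (∀ z ∈ P, Ex (MulAction.stabilizer G z)) ∧
      (∀ g w, ∃ z ∈ P, b g w = g • z) ∧
      (∀ g, ∀ s ∈ F, ∃ (W : Finset Ω) (p : Ω → Ω), Set.InjOn p W ∧
        (∀ w ∈ W, b g w = b (g * s) (p w)) ∧
        (1 - ε) * (Fintype.card Ω : ℝ) ≤ (W.card : ℝ))) : Ex G := by
  classical
  intro F hF ε hε
  obtain ⟨Ω, _, _, P, b, hP, hb, hm⟩ := H F hF (ε / 2) (by positivity)
  -- orbit representatives
  let ρ' : Quotient (MulAction.orbitRel G Z) → Z := fun c =>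
    if h : ∃ z ∈ P, Quotient.mk (MulAction.orbitRel G Z) z = c then h.choose else c.out
  let ρ : Z → Z := fun y => ρ' (Quotient.mk _ y)
  have hρmk : ∀ y, Quotient.mk (MulAction.orbitRel G Z) (ρ y) = Quotient.mk _ y := by
    intro y
    simp only [ρ, ρ']
    split_ifs with h
    · exact h.choose_spec.2
    · exact Quotient.out_eq _
  have hρP : ∀ y, ∀ z ∈ P, Quotient.mk (MulAction.orbitRel G Z) z = Quotient.mk _ y → ρ y ∈ P := by
    intro y z hz hzy
    have h : ∃ z ∈ P, Quotient.mk (MulAction.orbitRel G Z) z = Quotient.mk _ y := ⟨z, hz, hzy⟩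
    simp only [ρ, ρ', dif_pos h]
    exact h.choose_spec.1
  have hmk : ∀ (g : G) (y : Z), Quotient.mk (MulAction.orbitRel G Z) (g • y) = Quotient.mk _ y := by
    intro g y
    exact Quotient.sound ⟨g, rfl⟩
  have hρg : ∀ (g : G) (y : Z), ρ (g • y) = ρ y := by
    intro g y
    simp only [ρ, hmk]
  have hr' : ∀ y, ∃ g : G, g • ρ y = y := by
    intro y
    have h3 := Quotient.exact (hρmk y)
    obtain ⟨g, hg⟩ := h3
    refine ⟨g⁻¹, ?_⟩
    have hg' : g • y = ρ y := hg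
    rw [← hg', inv_smul_smul]
  choose r hr using hr'
  let k : G → Z → G := fun g y => (r y)⁻¹ * g * r (g⁻¹ • y)
  have hk : ∀ g y, k g y ∈ MulAction.stabilizer G (ρ y) := by
    intro g y
    rw [MulAction.mem_stabilizer_iff]
    show ((r y)⁻¹ * g * r (g⁻¹ • y)) • ρ y = ρ y
    rw [mul_smul, mul_smul]
    conv_lhs => rw [← hρg g⁻¹ y]
    rw [hr (g⁻¹ • y), smul_inv_smul]
    exact inv_smul_eq_iff.mpr (hr y).symm
  let C : ∀ z : Z, Set (MulAction.stabilizer G z) := fun z =>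
    {x | ∃ s ∈ F, ∃ z1 ∈ P, ∃ z2 ∈ P, (x : G) = (r z1)⁻¹ * s * r z2}
  have hC : ∀ z, (C z).Finite := by
    intro z
    have h3 : (Set.image2 (fun (s : G) (e : Z × Z) => (r e.1)⁻¹ * s * r e.2) F
      ((P : Set Z) ×ˢ (P : Set Z))).Finite := hF.image2 _ (P.finite_toSet.prod P.finite_toSet)
    refine (h3.preimage (Subtype.val_injective.injOn (s := Set.univ) |>.mono
      (Set.subset_univ _))).subset ?_
    rintro x ⟨s, hs, e1, he1, e2, he2, hx⟩
    exact ⟨s, hs, (e1, e2), ⟨he1, he2⟩, hx.symm⟩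
  obtain ⟨Ω', _, _, hΩ'⟩ := common (fun z : Z => MulAction.stabilizer G z) P C hC hP
    (ε := ε / 2) (by positivity)
  choose E hE Y a h1 h2 using hΩ'
  refine ⟨⋃ i ∈ P, Set.image2 (fun (x : G) (e : Z × Z) => r e.1 * x * (r e.2)⁻¹)
    ((fun x : MulAction.stabilizer G i => (x : G)) '' E i) ((P : Set Z) ×ˢ (P : Set Z)),
    P.finite_toSet.biUnion fun i hi =>
      ((hE i hi).image _).image2 _ (P.finite_toSet.prod P.finite_toSet), ?_⟩
  let A : G → Z → Ω' → Σ y : Z, Y (ρ y) := fun g y w => ⟨y, a (ρ y) ⟨k g y, hk g y⟩ w⟩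
  refine Wf.of (Ω × Ω') (Σ y : Z, Y (ρ y)) (fun g w => A g (b g w.1) w.2) ?_ ?_
  · intro g s hs
    obtain ⟨W, p, hp, hW, hc⟩ := hm g s hs
    have hkk : ∀ w ∈ W, ∃ (W' : Finset Ω') (p' : Ω' → Ω'), Set.InjOn p' W' ∧
        (∀ w' ∈ W', a (ρ (b g w)) ⟨k g (b g w), hk g _⟩ w' =
          a (ρ (b g w)) ⟨k (g * s) (b g w), hk _ _⟩ (p' w')) ∧
        (1 - ε / 2) * (Fintype.card Ω' : ℝ) ≤ (W'.card : ℝ) := by
      intro w hw
      have hinc : (⟨k g (b g w), hk g _⟩ : MulAction.stabilizer G (ρ (b g w)))⁻¹ *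
          ⟨k (g * s) (b g w), hk _ _⟩ ∈ C (ρ (b g w)) := by
        obtain ⟨z1, hz1, hz1'⟩ := hb g w
        obtain ⟨z2, hz2, hz2'⟩ := hb (g * s) (p w)
        refine ⟨s, hs, z1, hz1, z2, hz2, ?_⟩
        show (k g (b g w))⁻¹ * k (g * s) (b g w) = _
        have e1 : g⁻¹ • b g w = z1 := by rw [hz1', inv_smul_smul]
        have e2 : (g * s)⁻¹ • b g w = z2 := by rw [hW w hw, hz2', inv_smul_smul]
        simp only [k]
        rw [e1, e2]
        group
      obtain ⟨W', p', i1, i2, i3⟩ := h1 (ρ (b g w)) ⟨k g (b g w), hk g _⟩ _ hinc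
      refine ⟨W', p', i1, ?_, i3⟩
      intro w' hw'
      rw [i2 w' hw', mul_inv_cancel_left]
    choose! W' p' hp' hW' hc' using hkk
    obtain ⟨V, hV1, hV2, hV3⟩ := fib_match hε W p hp hc W' p' hp' hc'
    refine ⟨V, _, hV2, ?_, hV3⟩
    rintro ⟨w, w'⟩ hw
    obtain ⟨hw1, hw2⟩ := (hV1 _).mp hw
    show A g (b g w) w' = A (g * s) (b (g * s) (p w)) (p' w w')
    rw [← hW w hw1]
    show (⟨b g w, _⟩ : Σ y : Z, Y (ρ y)) = ⟨b g w, _⟩
    rw [hW' w hw1 w' hw2]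
  · rintro g h ⟨w, w'⟩ ⟨v, v'⟩ hh _
    obtain ⟨z1, hz1, hz1'⟩ := hb g w
    obtain ⟨z2, hz2, hz2'⟩ := hb h v
    have hy : b g w = b h v := congrArg Sigma.fst hh
    have hh' : A g (b g w) w' = A h (b g w) v' := by
      have : A g (b g w) w' = A h (b h v) v' := hh
      rw [this, hy]
    have hh2 : a (ρ (b g w)) ⟨k g (b g w), hk g _⟩ w' =
        a (ρ (b g w)) ⟨k h (b g w), hk h _⟩ v' := by
      have := (Sigma.mk.inj hh').2
      exact eq_of_heq this
    have h4 := h2 _ _ _ _ _ hh2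
    have e1 : g⁻¹ • b g w = z1 := by rw [hz1', inv_smul_smul]
    have e2 : h⁻¹ • b g w = z2 := by rw [hy, hz2', inv_smul_smul]
    have hPρ : ρ (b g w) ∈ P := by
      refine hρP _ z1 hz1 ?_
      rw [hz1', hmk]
    refine Set.mem_biUnion hPρ ?_
    refine ⟨(k g (b g w))⁻¹ * k h (b g w), ⟨_, h4, rfl⟩, (z1, z2), ⟨hz1, hz2⟩, ?_⟩
    simp only [k]
    rw [e1, e2]
    group

end Pool.Agent.H829.EG
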