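import Pool.Agent.H829.EG.Disc
import Pool.Agent.H829.EG.Fib
import Pool.Agent.H829.EG.Defs

/-!
# Exactness through cofinite subgroupoids
-/

namespace Pool.Agent.H829.EG

open Pool.Agent.N506.EX

universe u v

section

variable {G : Type u} {X : Type v} [Group G] [MulAction G X]

/-- The translate of a finite set. -/
def sm (g : G) (A : Finset X) : Finset X := A.map (MulAction.toPerm g).toEmbedding

theorem mem_sm {g : G} {A : Finset X} {x : X} : x ∈ sm g A ↔ g⁻¹ • x ∈ A := by
  simp only [sm, Finset.mem_map]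
  constructor
  · rintro ⟨y, hy, rfl⟩
    show g⁻¹ • (g • y) ∈ A
    rwa [inv_smul_smul]
  · intro h
    exact ⟨_, h, smul_inv_smul g x⟩

theorem sm_one (A : Finset X) : sm (1 : G) A = A := by
  ext x
  rw [mem_sm, inv_one, one_smul]

theorem sm_mul (g h : G) (A : Finset X) : sm (g * h) A = sm g (sm h A) := by
  ext x
  rw [mem_sm, mem_sm, mem_sm, mul_inv_rev, mul_smul]

variable (H : CofiniteSubgroupoid G X)

/-- The equivalence relation on marked finite sets. -/
def rel (a b : G × Finset X) : Prop :=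
  a.2 = b.2 ∧ ∀ x, x ∉ a.2 → H.Mem (a.1⁻¹ * b.1) (b.1⁻¹ • x)

theorem rel_refl (a : G × Finset X) : rel H a a :=
  ⟨rfl, fun x _ => by rw [inv_mul_cancel]; exact H.one _⟩

theorem rel_symm {a b : G × Finset X} (h : rel H a b) : rel H b a := by
  refine ⟨h.1.symm, fun x hx => ?_⟩
  rw [← h.1] at hx
  have h1 := H.inv _ _ (h.2 x hx)
  rw [mul_inv_rev, inv_inv, smul_smul] at h1
  have h2 : a.1⁻¹ * b.1 * b.1⁻¹ = a.1⁻¹ := by group
  rwa [h2] at h1

theorem rel_trans {a b c : G × Finset X} (h : rel H a b) (h' : rel H b c) : rel H a c := by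
  refine ⟨h.1.trans h'.1, fun x hx => ?_⟩
  have h1 := h.2 x hx
  rw [h.1] at hx
  have h2 := h'.2 x hx
  have h3 : (b.1⁻¹ * c.1) • (c.1⁻¹ • x) = b.1⁻¹ • x := by
    rw [smul_smul]
    congr 1
    group
  have h4 := H.mul (a.1⁻¹ * b.1) (b.1⁻¹ * c.1) (c.1⁻¹ • x) h2 (by rw [h3]; exact h1)
  have h5 : a.1⁻¹ * b.1 * (b.1⁻¹ * c.1) = a.1⁻¹ * c.1 := by group
  rwa [h5] at h4

/-- The setoid of marked finite sets. -/
def relSetoid : Setoid (G × Finset X) :=
  ⟨rel H, rel_refl H, rel_symm H, rel_trans H⟩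

/-- The `G`-set of marked finite sets. -/
def Mk : Type (max u v) := Quotient (relSetoid H)

/-- The class of a marked finite set. -/
def mkq (a : G × Finset X) : Mk H := Quotient.mk (relSetoid H) a

theorem mkq_eq {a b : G × Finset X} : mkq H a = mkq H b ↔ rel H a b :=
  ⟨fun h => Quotient.exact (s := relSetoid H) h, fun h => Quotient.sound (s := relSetoid H) h⟩

theorem rel_smul (g : G) {a b : G × Finset X} (h : rel H a b) :
    rel H (g * a.1, sm g a.2) (g * b.1, sm g b.2) := by
  refine ⟨by simp only [h.1], fun x hx => ?_⟩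
  simp only [mem_sm] at hx
  have h1 := h.2 _ hx
  simp only [mul_inv_rev]
  have h2 : a.1⁻¹ * g⁻¹ * (g * b.1) = a.1⁻¹ * b.1 := by group
  rw [h2, mul_smul]
  exact h1

instance : MulAction G (Mk H) where
  smul g := Quotient.map (fun a => (g * a.1, sm g a.2)) (fun _ _ h => rel_smul H g h)
  one_smul := by
    rintro ⟨a⟩
    show Quotient.mk (relSetoid H) _ = Quotient.mk (relSetoid H) _
    simp only [one_mul, sm_one]
  mul_smul := by
    rintro g h ⟨a⟩
    show Quotient.mk (relSetoid H) _ = Quotient.mk (relSetoid H) _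
    simp only [mul_assoc, sm_mul]

theorem smul_mk (g : G) (a : G × Finset X) :
    g • mkq H a = mkq H (g * a.1, sm g a.2) := rfl

theorem mem_stab_iff (E : Finset X) (g : G) :
    g ∈ MulAction.stabilizer G (mkq H ((1 : G), E)) ↔
      g ∈ H.offSubgroup E := by
  rw [MulAction.mem_stabilizer_iff, smul_mk]
  constructor
  · intro h
    have h1 : rel H ((1 : G), E) (g * 1, sm g E) := rel_symm H ((mkq_eq H).mp h)
    obtain ⟨h2, h3⟩ := h1
    simp only [mul_one] at h2 h3
    have h4 : ∀ x, g • x ∈ E ↔ x ∈ E := by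
      intro x
      conv_lhs => rw [h2]
      rw [mem_sm, inv_smul_smul]
    refine ⟨h4, fun x hx => ?_⟩
    have h5 := h3 (g • x) (fun h6 => hx ((h4 x).mp h6))
    rwa [inv_one, one_mul, inv_smul_smul] at h5
  · rintro ⟨h1, h2⟩
    refine (mkq_eq H).mpr (rel_symm H ⟨?_, fun x hx => ?_⟩)
    · simp only
      ext x
      rw [mem_sm, ← h1 (g⁻¹ • x), smul_inv_smul]
    · simp only [mul_one, inv_one, one_mul]
      refine h2 _ fun h6 => hx ?_
      rw [← h1 (g⁻¹ • x), smul_inv_smul] at h6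
      exact h6

end

/-- **Exactness through a cofinite subgroupoid.** -/
theorem ex_of_offSubgroup {G : Type u} {X : Type v} [Group G] [MulAction G X]
    (H : CofiniteSubgroupoid G X) (hX : ExtensivelyExact G X)
    (hE : ∀ E : Finset X, Ex (H.offSubgroup E)) : Ex G := by
  classical
  refine Ex.fibration (Z := Mk H) ?_
  intro F hF ε hε
  set S : Finset G := hF.toFinset with hS
  let E₀ : Finset X := S.biUnion fun s => (H.cofinite s).toFinset
  have hE₀ : ∀ s ∈ S, ∀ x, ¬ H.Mem s x → x ∈ E₀ := by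
    intro s hs x hx
    exact Finset.mem_biUnion.mpr ⟨s, hs, (Set.Finite.mem_toFinset _).mpr hx⟩
  obtain ⟨T, m, h0, h1, h2, h3⟩ := hX S E₀ (ε / 2) (by positivity)
  have hK : ∀ g, (m g).support.card ≤ T.card := by
    intro g
    refine (Finset.card_le_card (t := T.image (sm g)) ?_).trans Finset.card_image_le
    intro A hA
    obtain ⟨⟨A₀, hA₀, h4⟩, -⟩ := h2 g A (Finsupp.mem_support_iff.mp hA)
    refine Finset.mem_image.mpr ⟨A₀, hA₀, ?_⟩
    ext x
    rw [mem_sm, ← h4, smul_inv_smul]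
  obtain ⟨N, hN, a, ha, hW⟩ := disc m T.card h0 h1 hK (ε := ε / 2) (by positivity)
  have : Nonempty (Fin N) := ⟨⟨0, hN⟩⟩
  let A : G → Fin N → Finset X := fun g w => Sum.elim (fun x => x.1) (fun _ => ∅) (a g w)
  have hA : ∀ g w, ∃ A₀ ∈ insert ∅ T, A g w = sm g A₀ := by
    intro g w
    rcases h4 : a g w with ⟨B, j⟩ | ⟨i, j⟩
    · obtain ⟨⟨A₀, hA₀, h5⟩, -⟩ := h2 g B (ha g w B j h4)
      refine ⟨A₀, Finset.mem_insert_of_mem hA₀, ?_⟩
      simp only [A, h4, Sum.elim_inl]
      ext x
      rw [mem_sm, ← h5, smul_inv_smul]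
    · refine ⟨∅, Finset.mem_insert_self _ _, ?_⟩
      simp only [A, h4, Sum.elim_inr]
      rfl
  refine ⟨Fin N, inferInstance, inferInstance,
    (insert ∅ T).image (fun B => mkq H ((1 : G), B)), fun g w => mkq H (g, A g w), ?_, ?_, ?_⟩
  · intro z hz
    obtain ⟨B, -, rfl⟩ := Finset.mem_image.mp hz
    refine Ex.of_injective (hE B)
      (Subgroup.inclusion (fun g hg => (mem_stab_iff H B g).mp hg)) ?_
    exact Subgroup.inclusion_injective _
  · intro g w
    obtain ⟨A₀, hA₀, h4⟩ := hA g w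
    refine ⟨_, Finset.mem_image_of_mem _ hA₀, ?_⟩
    rw [smul_mk]
    simp only [h4, mul_one]
  · intro g s hs
    have hsS : s ∈ S := (Set.Finite.mem_toFinset hF).mpr hs
    obtain ⟨W, p, hp, hW1, hW2⟩ := hW g (g * s) ∅ (ε / 2) 0 (h3 g s hsS)
      (by
        intro T' hT'
        rw [Finset.eq_empty_of_forall_notMem fun q hq => hT' q hq]
        simp)
    refine ⟨W, p, hp, ?_, ?_⟩
    · intro w hw
      obtain ⟨q, j, h4, h5, -⟩ := hW1 w hw
      refine (mkq_eq H).mpr ⟨?_, ?_⟩
      · simp only [A, h4, h5, Sum.elim_inl]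
      · intro x hx
        simp only [A, h4, Sum.elim_inl] at hx
        have h6 : g⁻¹ * (g * s) = s := by group
        simp only [h6]
        by_contra hcon
        have h7 := (h2 (g * s) q (ha _ _ q j h5)).2 _ (hE₀ s hsS _ hcon)
        rw [smul_inv_smul] at h7
        exact hx h7
    · rw [Fintype.card_fin]
      convert hW2 using 3
      ring

/-- An exact group acts extensively exactly. -/
theorem IsExact.extensivelyExact {G : Type u} {X : Type v} [Group G] [MulAction G X]
    (hG : IsExact G) : ExtensivelyExact G X := by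
  classical
  intro S E₀ ε hε
  obtain ⟨F, μ, h0, h1, h2, h3⟩ := hG S ε hε
  let E₁ : Finset X := F.biUnion fun f => sm f⁻¹ E₀
  have hmap : ∀ (f : G →₀ ℝ) (A : Finset X),
      (f.mapDomain fun h => sm h E₁) A = ∑ h ∈ f.support with sm h E₁ = A, f h := by
    intro f A
    rw [Finsupp.mapDomain, Finsupp.sum, Finsupp.finsetSum_apply, Finset.sum_filter]
    exact Finset.sum_congr rfl fun h _ => Finsupp.single_apply
  refine ⟨F.image fun f => sm f E₁, fun g => (μ g).mapDomain fun h => sm h E₁, ?_, ?_, ?_, ?_⟩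
  · intro g A
    rw [hmap]
    exact Finset.sum_nonneg fun h _ => h0 g h
  · intro g
    rw [Finsupp.sum_mapDomain_index (fun _ => rfl) (fun _ _ _ => rfl)]
    exact h1 g
  · intro g A hA
    rw [hmap] at hA
    obtain ⟨h, hh, hh'⟩ := Finset.exists_ne_zero_of_sum_ne_zero hA
    obtain ⟨-, rfl⟩ := Finset.mem_filter.mp hh
    have hF := h2 g h hh'
    refine ⟨⟨sm (g⁻¹ * h) E₁, Finset.mem_image_of_mem _ hF, fun x => ?_⟩, fun x hx => ?_⟩
    · rw [mem_sm, mem_sm, mul_inv_rev, inv_inv, mul_smul]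
    · rw [mem_sm]
      refine Finset.mem_biUnion.mpr ⟨_, hF, ?_⟩
      rw [mem_sm, inv_inv, smul_smul, smul_smul]
      have : g⁻¹ * h * h⁻¹ * g = 1 := by group
      rw [this, one_smul]
      exact hx
  · intro g s hs
    refine le_trans ?_ (h3 g s hs)
    show l1 _ ≤ l1 _
    rw [← Finsupp.mapDomain_sub]
    set f := μ g - μ (g * s)
    have hsup : (f.mapDomain fun h => sm h E₁).support ⊆ f.support.image fun h => sm h E₁ :=
      Finsupp.mapDomain_support
    rw [l1_eq _ _ hsup, l1_eq f f.support subset_rfl]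
    calc ∑ A ∈ f.support.image (fun h => sm h E₁), |(f.mapDomain fun h => sm h E₁) A|
        ≤ ∑ A ∈ f.support.image (fun h => sm h E₁), ∑ h ∈ f.support with sm h E₁ = A, |f h| := by
          refine Finset.sum_le_sum fun A _ => ?_
          rw [hmap]
          exact Finset.abs_sum_le_sum_abs _ _
      _ = ∑ h ∈ f.support, |f h| :=
          Finset.sum_fiberwise_of_maps_to (fun h hh => Finset.mem_image_of_mem _ hh) _

end Pool.Agent.H829.EG
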