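import Pool.Agent.H829.EG.TreeRec

/-!
# Groups of tree automorphisms of bounded activity are exact when their germs are
-/

namespace Pool.Agent.H829.EG

open Pool.Agent.N506.EX

universe u v

section

variable {G : Type u} {α : ℕ → Type v} [Group G] [MulAction G ((n : ℕ) → α n)]
  [hT : TreeAction G α]

omit hT in
/-- A set closed enough under `S'`: singular points are added. -/
theorem exists_T₀ (hb : BoundedActivity G α) (S' : Finset G) (E₀ : Finset ((n : ℕ) → α n)) :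
    ∃ T₀ : Finset ((n : ℕ) → α n), E₀ ⊆ T₀ ∧
      ∀ s ∈ S', ∀ n, ∀ x ∈ Fs T₀ n, ∃ n', s • x ∈ Fs T₀ n' := by
  classical
  let Q : Finset ((n : ℕ) → α n) := S'.biUnion fun s =>
    (sing_finite (α := α) hb s).toFinset.image fun x => s • x
  refine ⟨E₀ ∪ Q, Finset.subset_union_left, ?_⟩
  rintro s hs n x ⟨y, hy, hxy⟩
  by_cases hx : x ∈ Sing (α := α) s
  · refine ⟨0, s • x, Finset.mem_union_right _ (Finset.mem_biUnion.mpr ⟨s, hs, ?_⟩), fun _ _ => rfl⟩
    exact Finset.mem_image_of_mem _ ((Set.Finite.mem_toFinset _).mpr hx)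
  · have h1 : ∃ k, Reg s k x := by
      by_contra hcon
      push Not at hcon
      exact hx hcon
    obtain ⟨k, hk⟩ := h1
    refine ⟨max n k, y, hy, fun i hi => ?_⟩
    rw [hk x (fun _ _ => rfl) i ((le_max_right _ _).trans hi)]
    exact hxy i ((le_max_left _ _).trans hi)

omit hT in
theorem exists_levels (hb : BoundedActivity G α) (S' : Finset G) (E₀ : Finset ((n : ℕ) → α n)) :
    ∃ (T₀ : Finset ((n : ℕ) → α n)) (C : ℕ) (φ : ℕ → ℕ), E₀ ⊆ T₀ ∧ Monotone φ ∧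
      (∀ k, ∀ s ∈ S', (Bad T₀ s (φ k)).encard ≤ C) ∧
      ∀ k, ∀ s ∈ S', ∀ x ∈ Fs T₀ (φ k), s • x ∈ Fs T₀ (φ (k + 1)) := by
  classical
  obtain ⟨T₀, hE₀, hT₀⟩ := exists_T₀ hb S' E₀
  obtain ⟨C, hC⟩ := hb S'
  have hB : ∀ n, (∀ s ∈ S', (activeVertices (α := α) s n).encard ≤ C) →
      ∃ n', n ≤ n' ∧ (∀ s ∈ S', (activeVertices (α := α) s n').encard ≤ C) ∧
        ∀ s ∈ S', ∀ x ∈ Fs T₀ n, s • x ∈ Fs T₀ n' := by
    intro n hn
    have h1 : ∀ s ∈ S', ∃ k, n ≤ k ∧ ∀ x ∈ Fs T₀ n, s • x ∈ Fs T₀ k := by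
      intro s hs
      have h2 : (Bad T₀ s n).Finite := by
        rw [← Set.encard_lt_top_iff]
        exact (bad_encard T₀ s n C (hn s hs)).trans_lt (ENat.natCast_lt_top _)
      have h3 : ∀ x : (n : ℕ) → α n, ∃ k, x ∈ Fs T₀ n → s • x ∈ Fs T₀ k := by
        intro x
        by_cases hx : x ∈ Fs T₀ n
        · obtain ⟨k, hk⟩ := hT₀ s hs n x hx
          exact ⟨k, fun _ => hk⟩
        · exact ⟨0, fun h => absurd h hx⟩
      choose k hk using h3
      refine ⟨max n (h2.toFinset.sup k), le_max_left _ _, fun x hx => ?_⟩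
      by_cases hsx : s • x ∈ Fs T₀ n
      · exact Fs_mono T₀ (le_max_left _ _) hsx
      · refine Fs_mono T₀ ((Finset.le_sup (f := k) ?_).trans (le_max_right _ _)) (hk x hx)
        exact (Set.Finite.mem_toFinset _).mpr ⟨hx, hsx⟩
    choose! k hk1 hk2 using h1
    obtain ⟨n', hn', hn''⟩ := hC (max n (S'.sup k))
    refine ⟨n', (le_max_left _ _).trans hn', hn'', fun s hs x hx => ?_⟩
    refine Fs_mono T₀ ?_ (hk2 s hs x hx)
    exact (Finset.le_sup (f := k) hs).trans ((le_max_right _ _).trans hn')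
  choose! f hf1 hf2 hf3 using hB
  obtain ⟨n₀, -, hn₀⟩ := hC 0
  let φ : ℕ → ℕ := fun k => Nat.rec n₀ (fun _ r => f r) k
  have hφ : ∀ k, ∀ s ∈ S', (activeVertices (α := α) s (φ k)).encard ≤ C := by
    intro k
    induction k with
    | zero => exact hn₀
    | succ k ih => exact hf2 _ ih
  refine ⟨T₀, C * T₀.card, φ, hE₀, monotone_nat_of_le_succ fun k => hf1 _ (hφ k), ?_, ?_⟩
  · intro k s hs
    exact bad_encard T₀ s (φ k) C (hφ k s hs)
  · intro k s hs x hx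
    exact hf3 _ (hφ k) s hs x hx

open scoped Classical in
/-- The number of levels (among the first `m`) to which a point belongs. -/
noncomputable def cnt (T₀ : Finset ((n : ℕ) → α n)) (φ : ℕ → ℕ) (m : ℕ) (x : (n : ℕ) → α n) : ℕ :=
  ((Finset.range m).filter fun j => x ∈ Fs T₀ (φ j)).card

omit hT in
theorem cnt_le (T₀ : Finset ((n : ℕ) → α n)) (φ : ℕ → ℕ) (m : ℕ) (s : G) (x : (n : ℕ) → α n)
    (h : ∀ k, x ∈ Fs T₀ (φ k) → s • x ∈ Fs T₀ (φ (k + 1))) :
    cnt T₀ φ m x ≤ cnt T₀ φ m (s • x) + 1 := by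
  classical
  have h1 : ((Finset.range m).filter fun j => x ∈ Fs T₀ (φ j)) ⊆
      insert (m - 1) (((Finset.range m).filter fun j => s • x ∈ Fs T₀ (φ j)).image
        fun j => j - 1) := by
    intro j hj
    obtain ⟨hj1, hj2⟩ := Finset.mem_filter.mp hj
    rw [Finset.mem_range] at hj1
    by_cases hjm : j = m - 1
    · exact Finset.mem_insert.mpr (Or.inl hjm)
    · refine Finset.mem_insert.mpr (Or.inr (Finset.mem_image.mpr ⟨j + 1, ?_, by omega⟩))
      exact Finset.mem_filter.mpr ⟨Finset.mem_range.mpr (by omega), h j hj2⟩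
  refine (Finset.card_le_card h1).trans ((Finset.card_insert_le _ _).trans ?_)
  exact Nat.add_le_add_right Finset.card_image_le 1

open scoped Classical in
omit hT in
theorem cnt_sq (T₀ : Finset ((n : ℕ) → α n)) (φ : ℕ → ℕ) (m : ℕ) (s : G) (x : (n : ℕ) → α n)
    (h : ∀ k, x ∈ Fs T₀ (φ k) → s • x ∈ Fs T₀ (φ (k + 1)))
    (h' : ∀ k, s • x ∈ Fs T₀ (φ k) → x ∈ Fs T₀ (φ (k + 1))) :
    ((cnt T₀ φ m (s • x) : ℝ) - cnt T₀ φ m x) ^ 2 ≤
      ∑ j ∈ Finset.range m, ((if x ∈ Bad T₀ s (φ j) then (1:ℝ) else 0) +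
        (if s • x ∈ Bad T₀ s⁻¹ (φ j) then (1:ℝ) else 0)) := by
  have h1 := cnt_le T₀ φ m s x h
  have h2 : cnt T₀ φ m (s • x) ≤ cnt T₀ φ m x + 1 := by
    have := cnt_le T₀ φ m s⁻¹ (s • x) (by rw [inv_smul_smul]; exact h')
    rwa [inv_smul_smul] at this
  have h3 : (cnt T₀ φ m (s • x) : ℝ) - cnt T₀ φ m x =
      ∑ j ∈ Finset.range m, ((if s • x ∈ Fs T₀ (φ j) then (1:ℝ) else 0) -
        (if x ∈ Fs T₀ (φ j) then (1:ℝ) else 0)) := by
    rw [Finset.sum_sub_distrib, cnt, cnt, Finset.sum_boole, Finset.sum_boole]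
  have h4 : |(cnt T₀ φ m (s • x) : ℝ) - cnt T₀ φ m x| ≤
      ∑ j ∈ Finset.range m, ((if x ∈ Bad T₀ s (φ j) then (1:ℝ) else 0) +
        (if s • x ∈ Bad T₀ s⁻¹ (φ j) then (1:ℝ) else 0)) := by
    rw [h3]
    refine (Finset.abs_sum_le_sum_abs _ _).trans (Finset.sum_le_sum fun j _ => ?_)
    have e1 : x ∈ Bad T₀ s (φ j) ↔ x ∈ Fs T₀ (φ j) ∧ s • x ∉ Fs T₀ (φ j) := Iff.rfl
    have e2 : s • x ∈ Bad T₀ s⁻¹ (φ j) ↔ s • x ∈ Fs T₀ (φ j) ∧ x ∉ Fs T₀ (φ j) := by
      show s • x ∈ Fs T₀ (φ j) ∧ s⁻¹ • (s • x) ∉ Fs T₀ (φ j) ↔ _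
      rw [inv_smul_smul]
    rw [if_congr e1 rfl rfl, if_congr e2 rfl rfl]
    by_cases p : x ∈ Fs T₀ (φ j) <;> by_cases q : s • x ∈ Fs T₀ (φ j) <;> simp [p, q]
  refine le_trans ?_ h4
  have h5 : |(cnt T₀ φ m (s • x) : ℝ) - cnt T₀ φ m x| ≤ 1 := by
    rw [abs_le]
    have i1 : (cnt T₀ φ m x : ℝ) ≤ cnt T₀ φ m (s • x) + 1 := by exact_mod_cast h1
    have i2 : (cnt T₀ φ m (s • x) : ℝ) ≤ cnt T₀ φ m x + 1 := by exact_mod_cast h2
    constructor <;> linarith
  rw [← sq_abs]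
  nlinarith [abs_nonneg ((cnt T₀ φ m (s • x) : ℝ) - cnt T₀ φ m x)]

theorem tree_extensivelyExact (hb : BoundedActivity G α)
    (hlev : ∀ n, IsExact (G ⧸ levelStab G α n)) : ExtensivelyExact G ((n : ℕ) → α n) := by
  classical
  intro S E₀ ε hε
  let S' : Finset G := S ∪ S.image fun s => s⁻¹
  have hS1 : ∀ s ∈ S, s ∈ S' := fun s hs => Finset.mem_union_left _ hs
  have hS2 : ∀ s ∈ S, s⁻¹ ∈ S' := fun s hs =>
    Finset.mem_union_right _ (Finset.mem_image_of_mem _ hs)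
  obtain ⟨T₀, C, φ, hE₀, hφ, hbad, hstep⟩ := exists_levels hb S' E₀
  obtain ⟨m, hm⟩ := exists_nat_gt ((2 * C : ℝ) / (ε / 8) ^ 2)
  have hm1 : (2 * C : ℝ) < m * (ε / 8) ^ 2 := (div_lt_iff₀ (by positivity)).mp hm
  have hm0 : (0:ℝ) < m := by
    by_contra hcon
    have h1 : (m:ℝ) ≤ 0 := not_lt.mp hcon
    have h2 : (0:ℝ) ≤ C := Nat.cast_nonneg _
    have h3 : (0:ℝ) < (ε / 8) ^ 2 := by positivity
    nlinarith
  let a : ((n : ℕ) → α n) → ℝ := fun x => cnt T₀ φ m x / m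
  have hcnt : ∀ x, cnt T₀ φ m x ≤ m := by
    intro x
    refine (Finset.card_filter_le _ _).trans ?_
    rw [Finset.card_range]
  refine relRec (pv α (φ m)) (fun g x => pv_smul _ g x) (levelExact (φ m) (hlev _)) S E₀ hε a
    ?_ ?_ ?_ ?_
  · intro x
    refine ⟨by positivity, ?_⟩
    rw [div_le_one hm0]
    exact_mod_cast hcnt x
  · intro x hx
    have h1 : cnt T₀ φ m x = m := by
      rw [cnt, Finset.filter_true_of_mem, Finset.card_range]
      intro j _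
      exact ⟨x, hE₀ hx, fun _ _ => rfl⟩
    simp only [a, h1]
    exact div_self hm0.ne'
  · intro v
    obtain ⟨z, rfl⟩ := pv_surj _ v
    refine (T₀.finite_toSet.image fun y => glue (φ m) z y).subset ?_
    rintro x ⟨hx1, hx2⟩
    have h1 : cnt T₀ φ m x ≠ 0 := by
      intro h
      apply hx2
      simp only [a, h]
      simp
    obtain ⟨j, hj⟩ := Finset.card_ne_zero.mp h1
    obtain ⟨hj1, hj2⟩ := Finset.mem_filter.mp hj
    obtain ⟨y, hy, hxy⟩ := Fs_mono T₀ (hφ (Finset.mem_range.mp hj1).le) hj2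
    refine ⟨y, hy, ?_⟩
    funext i
    simp only [glue]
    split_ifs with hi
    · exact ((pv_eq.mp hx1) i hi).symm
    · exact (hxy i (not_lt.mp hi)).symm
  · intro s hs T
    have h1 : ∀ x, (a (s • x) - a x) ^ 2 ≤ (∑ j ∈ Finset.range m,
        ((if x ∈ Bad T₀ s (φ j) then (1:ℝ) else 0) +
        (if s • x ∈ Bad T₀ s⁻¹ (φ j) then (1:ℝ) else 0))) / (m:ℝ) ^ 2 := by
      intro x
      have h2 := cnt_sq T₀ φ m s x (fun k hk => hstep k s (hS1 s hs) x hk) (fun k hk => by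
        have := hstep k s⁻¹ (hS2 s hs) _ hk
        rwa [inv_smul_smul] at this)
      have h3 : (a (s • x) - a x) ^ 2 =
          ((cnt T₀ φ m (s • x) : ℝ) - cnt T₀ φ m x) ^ 2 / (m:ℝ) ^ 2 := by
        simp only [a]
        rw [← sub_div, div_pow]
      rw [h3]
      exact div_le_div_of_nonneg_right h2 (by positivity)
    refine (Finset.sum_le_sum fun x _ => h1 x).trans ?_
    rw [← Finset.sum_div, Finset.sum_comm]
    have hcardle : ∀ (B : Set ((n : ℕ) → α n)) (R : Finset ((n : ℕ) → α n)), B.encard ≤ C →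
        ((R.filter fun x => x ∈ B).card : ℝ) ≤ C := by
      intro B R hB
      have i1 : ((R.filter fun x => x ∈ B : Finset _) : Set ((n : ℕ) → α n)) ⊆ B := by
        intro x hx
        exact (Finset.mem_filter.mp hx).2
      have i2 := (Set.encard_le_encard i1).trans hB
      rw [Set.encard_coe_eq_coe_finsetCard, Nat.cast_le] at i2
      exact_mod_cast i2
    have h4 : ∀ j ∈ Finset.range m, ∑ x ∈ T, ((if x ∈ Bad T₀ s (φ j) then (1:ℝ) else 0) +
        (if s • x ∈ Bad T₀ s⁻¹ (φ j) then (1:ℝ) else 0)) ≤ 2 * C := by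
      intro j _
      rw [Finset.sum_add_distrib]
      have i1 : ∑ x ∈ T, (if x ∈ Bad T₀ s (φ j) then (1:ℝ) else 0) ≤ C := by
        rw [Finset.sum_boole]
        exact hcardle _ _ (hbad j s (hS1 s hs))
      have i2 : ∑ x ∈ T, (if s • x ∈ Bad T₀ s⁻¹ (φ j) then (1:ℝ) else 0) ≤ C := by
        have i3 : ∑ x ∈ T, (if s • x ∈ Bad T₀ s⁻¹ (φ j) then (1:ℝ) else 0) =
            ∑ y ∈ T.map (MulAction.toPerm s).toEmbedding,
              (if y ∈ Bad T₀ s⁻¹ (φ j) then (1:ℝ) else 0) := by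
          rw [Finset.sum_map]
          rfl
        rw [i3, Finset.sum_boole]
        exact hcardle _ _ (hbad j s⁻¹ (hS2 s hs))
      linarith
    have h5 := Finset.sum_le_sum h4
    rw [Finset.sum_const, Finset.card_range, nsmul_eq_mul] at h5
    rw [div_le_iff₀ (by positivity)]
    refine h5.trans ?_
    nlinarith

/-- **Main theorem.** -/
theorem tree_exact [FaithfulSMul G ((n : ℕ) → α n)] (hb : BoundedActivity G α)
    (hlev : ∀ n, IsExact (G ⧸ levelStab G α n))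
    (hgerm : ∀ x : (n : ℕ) → α n, IsExact (GermGroup G x)) : IsExact G := by
  refine Ex.isExact ?_
  exact ex_of_offSubgroup (tailGpd G α hb) (tree_extensivelyExact hb hlev)
    (off_ex hb (fun n => (hlev n).ex) (fun x => (hgerm x).ex))

end

end Pool.Agent.H829.EG
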