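import Pool.Agent.H829.EG.Pm
import Pool.Agent.H829.EG.Coc

/-!
# Relative recurrence gives extensive exactness
-/

namespace Pool.Agent.H829.EG

open Pool.Agent.N506.EX

universe u v w

section

variable {X : Type u}

theorem l1_smul_le (c : ℝ) (f : X →₀ ℝ) : l1 (c • f) ≤ |c| * l1 f := by
  rw [l1_eq (c • f) f.support Finsupp.support_smul, l1_eq f f.support subset_rfl, Finset.mul_sum]
  refine Finset.sum_le_sum fun x _ => ?_
  rw [Finsupp.smul_apply, smul_eq_mul, abs_mul]

theorem l1_sum_le {ι : Type v} (S : Finset ι) (f : ι → X →₀ ℝ) :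
    l1 (∑ i ∈ S, f i) ≤ ∑ i ∈ S, l1 (f i) := by
  classical
  induction S using Finset.induction_on with
  | empty => simp [l1_zero]
  | insert a S ha ih =>
    rw [Finset.sum_insert ha, Finset.sum_insert ha]
    exact (l1_add_le _ _).trans (by linarith)

theorem tot_eq (f : X →₀ ℝ) :
    (f.sum fun _ t => t) = Finsupp.linearCombination ℝ (fun _ : X => (1:ℝ)) f := by
  rw [Finsupp.linearCombination_apply]
  simp

end

theorem relRec {G : Type u} {X : Type v} {V : Type w} [Group G] [MulAction G X] [MulAction G V]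
    (π : X → V) (hπ : ∀ (g : G) x, π (g • x) = g • π x) (hV : ExtensivelyExact G V)
    (S : Finset G) (E₀ : Finset X) {ε : ℝ} (hε : 0 < ε) (a : X → ℝ)
    (ha : ∀ x, 0 ≤ a x ∧ a x ≤ 1) (haE : ∀ x ∈ E₀, a x = 1)
    (hfin : ∀ v, {x | π x = v ∧ a x ≠ 0}.Finite)
    (hsum : ∀ s ∈ S, ∀ T : Finset X, ∑ x ∈ T, (a (s • x) - a x) ^ 2 ≤ (ε / 8) ^ 2) :
    ∃ (T : Finset (Finset X)) (m : G → Finset X →₀ ℝ),
      (∀ g A, 0 ≤ m g A) ∧ (∀ g, ((m g).sum fun _ t => t) = 1) ∧
      (∀ g A, m g A ≠ 0 → (∃ A₀ ∈ T, ∀ x, g • x ∈ A ↔ x ∈ A₀) ∧ ∀ x ∈ E₀, g • x ∈ A) ∧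
      ∀ g, ∀ s ∈ S, ((m g - m (g * s)).sum fun _ t => |t|) ≤ ε := by
  classical
  obtain ⟨T₁, b, b0, b1, b2, b3⟩ := hV S (E₀.image π) (ε / 2) (by positivity)
  have hU : ∀ B : Finset V, {x | π x ∈ B ∧ a x ≠ 0}.Finite := by
    intro B
    refine (B.finite_toSet.biUnion fun v _ => hfin v).subset ?_
    rintro x ⟨hx, hx'⟩
    exact Set.mem_biUnion hx ⟨rfl, hx'⟩
  let U : Finset V → Finset X := fun B => (hU B).toFinset
  have hUm : ∀ B x, x ∈ U B ↔ π x ∈ B ∧ a x ≠ 0 := by
    intro B x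
    simp only [U, Set.Finite.mem_toFinset, Set.mem_ofPred_eq]
  let θ : G → X → ℝ := fun g x => Real.pi / 2 * a (g⁻¹ • x)
  have hθ : ∀ g x, 0 ≤ θ g x ∧ θ g x ≤ Real.pi / 2 := by
    intro g x
    have h1 := ha (g⁻¹ • x)
    have h2 := Real.pi_pos
    constructor
    · exact mul_nonneg (by positivity) h1.1
    · exact mul_le_of_le_one_right (by positivity) h1.2
  let Wf : G → Finset V → Finset X := fun g B => sm g (U (sm g⁻¹ B))
  have hWf : ∀ g B x, x ∈ Wf g B ↔ π x ∈ B ∧ a (g⁻¹ • x) ≠ 0 := by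
    intro g B x
    simp only [Wf]
    rw [mem_sm, hUm, mem_sm, hπ, inv_inv, smul_inv_smul]
  let L : G → Finset V → Finset X →₀ ℝ := fun g B => pm (θ g) (Wf g B)
  let m : G → Finset X →₀ ℝ := fun g => ∑ B ∈ (b g).support, (b g B) • L g B
  have hm : ∀ g A, m g A = ∑ B ∈ (b g).support, b g B * L g B A := by
    intro g A
    simp only [m]
    rw [Finsupp.finsetSum_apply]
    rfl
  refine ⟨T₁.biUnion fun B₀ => (U B₀).powerset, m, ?_, ?_, ?_, ?_⟩
  · intro g A
    rw [hm]
    exact Finset.sum_nonneg fun B _ => mul_nonneg (b0 g B) (pm_nonneg _ _ _)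
  · intro g
    rw [tot_eq]
    simp only [m]
    rw [map_sum]
    simp only [map_smul, ← tot_eq, L, pm_sum, smul_eq_mul, mul_one]
    exact b1 g
  · intro g A hA
    rw [hm] at hA
    obtain ⟨B, hB, hB'⟩ := Finset.exists_ne_zero_of_sum_ne_zero hA
    have h1 : b g B ≠ 0 := left_ne_zero_of_mul hB'
    have h2 : L g B A ≠ 0 := right_ne_zero_of_mul hB'
    obtain ⟨⟨B₀, hB₀, h3⟩, h4⟩ := b2 g B h1
    have h5 : A ⊆ Wf g B := Finset.mem_powerset.mp (pm_support _ _ (Finsupp.mem_support_iff.mpr h2))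
    refine ⟨⟨sm g⁻¹ A, ?_, fun x => ?_⟩, fun x hx => ?_⟩
    · refine Finset.mem_biUnion.mpr ⟨B₀, hB₀, Finset.mem_powerset.mpr fun x hx => ?_⟩
      rw [mem_sm, inv_inv] at hx
      have h6 := (hWf g B _).mp (h5 hx)
      rw [inv_smul_smul, hπ, h3] at h6
      exact (hUm _ _).mpr h6
    · rw [mem_sm, inv_inv]
    · refine pm_mem (θ g) (W := Wf g B) ?_ ?_ h2
      · rw [hWf, inv_smul_smul, haE x hx, hπ]
        exact ⟨h4 _ (Finset.mem_image_of_mem _ hx), one_ne_zero⟩
      · simp only [θ]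
        rw [inv_smul_smul, haE x hx, mul_one]
  · intro g s hs
    show l1 (m g - m (g * s)) ≤ ε
    set D : Finset (Finset V) := (b g).support ∪ (b (g * s)).support with hD
    have e1 : m g = ∑ B ∈ D, (b g B) • L g B := by
      refine Finset.sum_subset Finset.subset_union_left fun B _ hB => ?_
      rw [Finsupp.notMem_support_iff.mp hB, zero_smul]
    have e2 : m (g * s) = ∑ B ∈ D, (b (g * s) B) • L (g * s) B := by
      refine Finset.sum_subset Finset.subset_union_right fun B _ hB => ?_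
      rw [Finsupp.notMem_support_iff.mp hB, zero_smul]
    have e3 : m g - m (g * s) = ∑ B ∈ D, ((b g B - b (g * s) B) • L g B +
        (b (g * s) B) • (L g B - L (g * s) B)) := by
      rw [e1, e2, ← Finset.sum_sub_distrib]
      refine Finset.sum_congr rfl fun B _ => ?_
      rw [sub_smul, smul_sub]
      abel
    have e4 : ∀ B, l1 (L g B) = 1 := fun B => l1_prob _ (pm_nonneg _ _) (pm_sum _ _)
    have e5 : ∀ B, l1 (L g B - L (g * s) B) ≤ ε / 2 := by
      intro B
      let W' : Finset X := Wf g B ∪ Wf (g * s) B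
      have i1 : L g B = pm (θ g) W' := by
        refine (pm_enlarge (θ g) Finset.subset_union_left ?_).symm
        intro x hx hx'
        have h1 : π x ∈ B := by
          rcases Finset.mem_union.mp hx with h | h
          · exact ((hWf _ _ _).mp h).1
          · exact ((hWf _ _ _).mp h).1
        rw [hWf, not_and_not_right] at hx'
        simp only [θ, hx' h1, mul_zero]
      have i2 : L (g * s) B = pm (θ (g * s)) W' := by
        refine (pm_enlarge (θ (g * s)) Finset.subset_union_right ?_).symm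
        intro x hx hx'
        have h1 : π x ∈ B := by
          rcases Finset.mem_union.mp hx with h | h
          · exact ((hWf _ _ _).mp h).1
          · exact ((hWf _ _ _).mp h).1
        rw [hWf, not_and_not_right] at hx'
        simp only [θ, hx' h1, mul_zero]
      rw [i1, i2]
      refine (pm_l1 _ _ _ (fun x _ => hθ g x) (fun x _ => hθ (g * s) x)).trans ?_
      have i3 : ∑ x ∈ W', (θ g x - θ (g * s) x) ^ 2 ≤ (Real.pi / 2) ^ 2 * (ε / 8) ^ 2 := by
        have i4 : ∑ x ∈ W', (θ g x - θ (g * s) x) ^ 2 =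
            (Real.pi / 2) ^ 2 * ∑ y ∈ sm (g * s)⁻¹ W', (a (s • y) - a y) ^ 2 := by
          rw [Finset.mul_sum]
          simp only [sm]
          rw [Finset.sum_map]
          refine Finset.sum_congr rfl fun x _ => ?_
          have i5 : s • ((MulAction.toPerm (g * s)⁻¹).toEmbedding x) = g⁻¹ • x := by
            show s • ((g * s)⁻¹ • x) = g⁻¹ • x
            rw [smul_smul]
            congr 1
            group
          rw [i5]
          show (Real.pi / 2 * a (g⁻¹ • x) - Real.pi / 2 * a ((g * s)⁻¹ • x)) ^ 2 =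
            (Real.pi / 2) ^ 2 * (a (g⁻¹ • x) - a ((g * s)⁻¹ • x)) ^ 2
          ring
        rw [i4]
        exact mul_le_mul_of_nonneg_left (hsum s hs _) (by positivity)
      have i6 : Real.sqrt (∑ x ∈ W', (θ g x - θ (g * s) x) ^ 2) ≤ Real.pi / 2 * (ε / 8) := by
        refine Real.sqrt_le_iff.mpr ⟨by have := Real.pi_pos; positivity, ?_⟩
        rw [mul_pow]
        exact i3
      have i7 : Real.pi ≤ 4 := Real.pi_le_four
      nlinarith
    rw [e3]
    refine (l1_sum_le _ _).trans ?_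
    have e6 : ∀ B ∈ D, l1 ((b g B - b (g * s) B) • L g B + (b (g * s) B) • (L g B - L (g * s) B)) ≤
        |(b g - b (g * s)) B| + b (g * s) B * (ε / 2) := by
      intro B _
      refine (l1_add_le _ _).trans (add_le_add ?_ ?_)
      · refine (l1_smul_le _ _).trans ?_
        rw [e4, mul_one, Finsupp.sub_apply]
      · refine (l1_smul_le _ _).trans ?_
        rw [abs_of_nonneg (b0 _ _)]
        exact mul_le_mul_of_nonneg_left (e5 B) (b0 _ _)
    refine (Finset.sum_le_sum e6).trans ?_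
    rw [Finset.sum_add_distrib, ← Finset.sum_mul]
    have e7 : ∑ B ∈ D, |(b g - b (g * s)) B| ≤ ε / 2 := by
      have h1 := b3 g s hs
      have h2 : ((b g - b (g * s)).sum fun _ t => |t|) = ∑ B ∈ D, |(b g - b (g * s)) B| :=
        Finsupp.sum_of_support_subset _ Finsupp.support_sub _ (fun _ _ => abs_zero)
      rw [h2] at h1
      exact h1
    have e8 : ∑ B ∈ D, b (g * s) B = 1 := by
      rw [← b1 (g * s)]
      exact (Finsupp.sum_of_support_subset (b (g * s)) Finset.subset_union_right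
        (fun _ t => t) (fun _ _ => rfl)).symm
    rw [e8]
    linarith

end Pool.Agent.H829.EG
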