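import Pool.Graph.R_pool_sql_team_seeded_63374d34.N506.EXM

/-!
# Discretising families of finitely supported probability measures
-/

namespace Pool.Agent.H829.EG

open Pool.Agent.N506.EX

universe u v

/-- A family of finitely supported probability measures with bounded support sizes is realised,
up to `ε`, by a family of random variables on one finite uniform sample space, such that any two
of them agree after a partial matching of the sample space. -/
theorem disc {I : Type u} {Q : Type v} (μ : I → Q →₀ ℝ) (K : ℕ) (h0 : ∀ i q, 0 ≤ μ i q)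
    (h1 : ∀ i, ((μ i).sum fun _ t => t) = 1) (hK : ∀ i, (μ i).support.card ≤ K)
    {ε : ℝ} (hε : 0 < ε) :
    ∃ (N : ℕ) (_ : 0 < N) (a : I → Fin N → (Q × ℕ) ⊕ (I × ℕ)),
      (∀ i w q j, a i w = Sum.inl (q, j) → μ i q ≠ 0) ∧
      (∀ i i' (B : Set Q) (c d : ℝ), l1 (μ i - μ i') ≤ c →
        (∀ T : Finset Q, (∀ q ∈ T, q ∈ B) → ∑ q ∈ T, μ i q ≤ d) →
        ∃ (W : Finset (Fin N)) (p : Fin N → Fin N), Set.InjOn p W ∧
          (∀ w ∈ W, ∃ q j, a i w = Sum.inl (q, j) ∧ a i' (p w) = Sum.inl (q, j) ∧ q ∉ B) ∧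
          (1 - (c + d + ε)) * (N : ℝ) ≤ (W.card : ℝ)) := by
  classical
  obtain ⟨N, hN⟩ := exists_nat_gt ((K : ℝ) / ε)
  have hNE : (K : ℝ) < N * ε := (div_lt_iff₀ hε).mp hN
  have hN0 : 0 < N := by
    have : (0:ℝ) < N := by
      by_contra hcon
      have h4 : (N:ℝ) ≤ 0 := not_lt.mp hcon
      have h5 : (0:ℝ) ≤ (K:ℝ) := Nat.cast_nonneg _
      nlinarith
    exact_mod_cast this
  let T : I → Finset Q := fun i => (μ i).support
  have hT : ∀ i x, μ i x ≠ 0 → x ∈ T i := fun i x hx => Finsupp.mem_support_iff.mpr hx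
  have hsum : ∀ i, ∑ x ∈ T i, μ i x = 1 := fun i => h1 i
  let ν : I → Q → ℕ := fun i x => ⌊(N:ℝ) * μ i x⌋₊
  have hν : ∀ i x, (ν i x : ℝ) ≤ N * μ i x := fun i x =>
    Nat.floor_le (mul_nonneg (Nat.cast_nonneg _) (h0 i x))
  have hν' : ∀ i x, (N:ℝ) * μ i x - 1 ≤ ν i x := fun i x => (Nat.sub_one_lt_floor _).le
  let A : I → Finset (Q × ℕ) := fun i => (T i).biUnion fun x => (Finset.range (ν i x)).image
    fun j => (x, j)
  have hA : ∀ i x j, (x, j) ∈ A i ↔ x ∈ T i ∧ j < ν i x := by
    intro i x j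
    simp only [A, Finset.mem_biUnion, Finset.mem_image, Finset.mem_range, Prod.mk.injEq]
    constructor
    · rintro ⟨x', hx', j', hj', rfl, rfl⟩
      exact ⟨hx', hj'⟩
    · rintro ⟨hx, hj⟩
      exact ⟨x, hx, j, hj, rfl, rfl⟩
  have hdisj : ∀ (S : Finset Q) (f : Q → ℕ),
      (S.biUnion fun x => (Finset.range (f x)).image fun j => (x, j)).card = ∑ x ∈ S, f x := by
    intro S f
    rw [Finset.card_biUnion]
    · refine Finset.sum_congr rfl fun x _ => ?_
      rw [Finset.card_image_of_injective _ (Prod.mk_right_injective x), Finset.card_range]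
    · intro x _ y _ hxy
      rw [Function.onFun, Finset.disjoint_left]
      intro z hz1 hz2
      rw [Finset.mem_image] at hz1 hz2
      obtain ⟨z1, -, rfl⟩ := hz1
      obtain ⟨z2, -, h2⟩ := hz2
      exact hxy (congrArg Prod.fst h2).symm
  have hAc : ∀ i, (A i).card = ∑ x ∈ T i, ν i x := fun i => hdisj _ _
  have hAN : ∀ i, (A i).card ≤ N := by
    intro i
    have : ((A i).card : ℝ) ≤ N := by
      rw [hAc]
      push_cast
      calc ∑ x ∈ T i, (ν i x : ℝ) ≤ ∑ x ∈ T i, (N:ℝ) * μ i x :=
            Finset.sum_le_sum fun x _ => hν i x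
        _ = N := by rw [← Finset.mul_sum, hsum, mul_one]
    exact_mod_cast this
  let B : I → Finset (Q × ℕ ⊕ I × ℕ) := fun i =>
    (A i).map ⟨Sum.inl, Sum.inl_injective⟩ ∪
      ((Finset.range (N - (A i).card)).image fun j => Sum.inr (i, j))
  have hBc : ∀ i, (B i).card = N := by
    intro i
    rw [Finset.card_union_of_disjoint, Finset.card_map, Finset.card_image_of_injective,
      Finset.card_range]
    · have := hAN i
      omega
    · intro a b hab
      simpa using hab
    · rw [Finset.disjoint_left]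
      intro z hz1 hz2
      rw [Finset.mem_map] at hz1
      rw [Finset.mem_image] at hz2
      obtain ⟨z1, -, rfl⟩ := hz1
      obtain ⟨z2, -, h2⟩ := hz2
      simp at h2
  have hBA : ∀ i q j, (Sum.inl (q, j) : Q × ℕ ⊕ I × ℕ) ∈ B i ↔ (q, j) ∈ A i := by
    intro i q j
    simp [B]
  let en : ∀ i, Fin N ≃ B i := fun i => ((B i).equivFinOfCardEq (hBc i)).symm
  refine ⟨N, hN0, fun i w => (en i w : Q × ℕ ⊕ I × ℕ), ?_, ?_⟩
  · intro i w q j hw
    have h4 := (en i w).2
    have hw' : (en i w : Q × ℕ ⊕ I × ℕ) = Sum.inl (q, j) := hw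
    rw [hw', hBA, hA] at h4
    exact Finsupp.mem_support_iff.mp h4.1
  · intro i i' Bd c d hc hd
    let W : Finset (Fin N) := Finset.univ.filter fun w =>
      ((en i w : Q × ℕ ⊕ I × ℕ)) ∈ B i' ∧ ∃ q j, (en i w : Q × ℕ ⊕ I × ℕ) = Sum.inl (q, j) ∧ q ∉ Bd
    let p : Fin N → Fin N := fun w => if hw : ((en i w : Q × ℕ ⊕ I × ℕ)) ∈ B i' then
      (en i').symm ⟨_, hw⟩ else w
    have hpw : ∀ w ∈ W, (en i' (p w) : Q × ℕ ⊕ I × ℕ) = en i w := by
      intro w hw
      have hw' : ((en i w : Q × ℕ ⊕ I × ℕ)) ∈ B i' := (Finset.mem_filter.mp hw).2.1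
      simp only [p, dif_pos hw', Equiv.apply_symm_apply]
    refine ⟨W, p, ?_, ?_, ?_⟩
    · intro x hx y hy hxy
      have e1 := hpw x hx
      have e2 := hpw y hy
      rw [hxy, e2] at e1
      exact (en i).injective (Subtype.ext e1.symm)
    · intro w hw
      obtain ⟨-, q, j, h4, h5⟩ := (Finset.mem_filter.mp hw).2
      exact ⟨q, j, h4, (hpw w hw).trans h4, h5⟩
    · let T' : Finset Q := (T i).filter fun q => q ∉ Bd
      let D : Finset (Q × ℕ) := T'.biUnion fun x =>
        (Finset.range (min (ν i x) (ν i' x))).image fun j => (x, j)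
      have hDc : (D.card : ℝ) = ∑ x ∈ T', ((min (ν i x) (ν i' x) : ℕ) : ℝ) := by
        rw [hdisj]
        push_cast
        rfl
      have hDB : ∀ z ∈ D, (Sum.inl z : Q × ℕ ⊕ I × ℕ) ∈ B i ∧ Sum.inl z ∈ B i' ∧ z.1 ∉ Bd := by
        intro z hz
        simp only [D, Finset.mem_biUnion, Finset.mem_image, Finset.mem_range] at hz
        obtain ⟨x, hx, j, hj, rfl⟩ := hz
        have hx' := Finset.mem_filter.mp hx
        rw [lt_min_iff] at hj
        refine ⟨(hBA _ _ _).mpr ((hA _ _ _).mpr ⟨hx'.1, hj.1⟩),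
          (hBA _ _ _).mpr ((hA _ _ _).mpr ⟨?_, hj.2⟩), hx'.2⟩
        apply hT
        intro h9
        have h10 : ν i' x = 0 := by simp [ν, h9]
        omega
      have hDW : D.card ≤ W.card := by
        refine Finset.card_le_card_of_injOn
          (fun z => if hz : (Sum.inl z : Q × ℕ ⊕ I × ℕ) ∈ B i then (en i).symm ⟨_, hz⟩
            else ⟨0, hN0⟩) ?_ ?_
        · intro z hz
          have h4 := hDB z hz
          simp only [dif_pos h4.1]
          simp only [W, Finset.coe_filter, Finset.mem_univ, true_and, Set.mem_ofPred_eq,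
            Equiv.apply_symm_apply]
          exact ⟨h4.2.1, z.1, z.2, rfl, h4.2.2⟩
        · intro z hz z' hz' hzz
          have h4 := hDB z hz
          have h4' := hDB z' hz'
          simp only [dif_pos h4.1, dif_pos h4'.1] at hzz
          have := congrArg Subtype.val ((en i).symm.injective hzz)
          simpa using this
      have hDl : (1 - (c + d + ε)) * (N:ℝ) ≤ D.card := by
        rw [hDc]
        have h4 : ∀ x ∈ T', (N:ℝ) * μ i x - N * |(μ i - μ i') x| - 1 ≤
            ((min (ν i x) (ν i' x) : ℕ) : ℝ) := by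
          intro x _
          have hN1 : (0:ℝ) ≤ N := Nat.cast_nonneg _
          have i1 := hν' i x
          have i2 := hν' i' x
          have i3 : μ i x - μ i' x ≤ |(μ i - μ i') x| := by
            rw [Finsupp.sub_apply]
            exact le_abs_self _
          have i4 : 0 ≤ |(μ i - μ i') x| := abs_nonneg _
          have i5 := mul_le_mul_of_nonneg_left i3 hN1
          have i6 := mul_nonneg hN1 i4
          rw [mul_sub] at i5
          rw [Nat.cast_min]
          refine le_min ?_ ?_
          · linarith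
          · linarith
        have h5 : ∑ x ∈ T', |(μ i - μ i') x| ≤ c := by
          refine le_trans ?_ hc
          rw [l1_eq _ (T' ∪ (μ i - μ i').support) Finset.subset_union_right]
          exact Finset.sum_le_sum_of_subset_of_nonneg Finset.subset_union_left
            fun _ _ _ => abs_nonneg _
        have h6 : ∑ x ∈ T', ((N:ℝ) * μ i x - N * |(μ i - μ i') x| - 1) ≤
            ∑ x ∈ T', ((min (ν i x) (ν i' x) : ℕ) : ℝ) := Finset.sum_le_sum h4
        have hsum' : 1 - d ≤ ∑ x ∈ T', μ i x := by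
          have h7 : ∑ x ∈ T i, μ i x = ∑ x ∈ T', μ i x +
              ∑ x ∈ (T i).filter (fun q => ¬ q ∉ Bd), μ i x :=
            (Finset.sum_filter_add_sum_filter_not (T i) (fun q => q ∉ Bd) _).symm
          have h8 : ∑ x ∈ (T i).filter (fun q => ¬ q ∉ Bd), μ i x ≤ d := by
            refine hd _ fun q hq => ?_
            exact not_not.mp (Finset.mem_filter.mp hq).2
          rw [hsum] at h7
          linarith
        rw [Finset.sum_sub_distrib, Finset.sum_sub_distrib, ← Finset.mul_sum, ← Finset.mul_sum,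
          Finset.sum_const, nsmul_eq_mul, mul_one] at h6
        have h7 : (T'.card : ℝ) ≤ K := by
          exact_mod_cast (Finset.card_filter_le _ _).trans (hK i)
        have h8 : (N:ℝ) * ∑ x ∈ T', |(μ i - μ i') x| ≤ N * c :=
          mul_le_mul_of_nonneg_left h5 (Nat.cast_nonneg _)
        have h9 : (N:ℝ) * (1 - d) ≤ N * ∑ x ∈ T', μ i x :=
          mul_le_mul_of_nonneg_left hsum' (Nat.cast_nonneg _)
        refine le_trans ?_ h6
        nlinarith
      exact hDl.trans (by exact_mod_cast hDW)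

end Pool.Agent.H829.EG
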