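import Pool.Agent.H829.EG.Rec

/-!
# Extensive exactness from a sequence of sets with small boundaries
-/

namespace Pool.Agent.H829.EG

open Pool.Agent.N506.EX

universe u v w

section

variable {G : Type u} {X : Type v} [Group G] [MulAction G X]

/-- The points of `F k` that leave it under `s`. -/
def Out (F : ℕ → Set X) (s : G) (k : ℕ) : Set X := {x | x ∈ F k ∧ s • x ∉ F k}

open scoped Classical in
/-- The number of levels (among the first `m`) to which a point belongs. -/
noncomputable def cn (F : ℕ → Set X) (m : ℕ) (x : X) : ℕ :=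
  ((Finset.range m).filter fun j => x ∈ F j).card

theorem cn_le (F : ℕ → Set X) (m : ℕ) (s : G) (x : X)
    (h : ∀ k, x ∈ F k → s • x ∈ F (k + 1)) : cn F m x ≤ cn F m (s • x) + 1 := by
  classical
  have h1 : ((Finset.range m).filter fun j => x ∈ F j) ⊆
      insert (m - 1) (((Finset.range m).filter fun j => s • x ∈ F j).image
        fun j => j - 1) := by
    intro j hj
    obtain ⟨hj1, hj2⟩ := Finset.mem_filter.mp hj
    rw [Finset.mem_range] at hj1
    by_cases hjm : j = m - 1
    · exact Finset.mem_insert.mpr (Or.inl hjm)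
    · refine Finset.mem_insert.mpr (Or.inr (Finset.mem_image.mpr ⟨j + 1, ?_, by omega⟩))
      exact Finset.mem_filter.mpr ⟨Finset.mem_range.mpr (by omega), h j hj2⟩
  refine (Finset.card_le_card h1).trans ((Finset.card_insert_le _ _).trans ?_)
  exact Nat.add_le_add_right Finset.card_image_le 1

open scoped Classical in
theorem cn_sq (F : ℕ → Set X) (m : ℕ) (s : G) (x : X)
    (h : ∀ k, x ∈ F k → s • x ∈ F (k + 1)) (h' : ∀ k, s • x ∈ F k → x ∈ F (k + 1)) :
    ((cn F m (s • x) : ℝ) - cn F m x) ^ 2 ≤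
      ∑ j ∈ Finset.range m, ((if x ∈ Out F s j then (1:ℝ) else 0) +
        (if s • x ∈ Out F s⁻¹ j then (1:ℝ) else 0)) := by
  have h1 := cn_le F m s x h
  have h2 : cn F m (s • x) ≤ cn F m x + 1 := by
    have := cn_le F m s⁻¹ (s • x) (by rw [inv_smul_smul]; exact h')
    rwa [inv_smul_smul] at this
  have h3 : (cn F m (s • x) : ℝ) - cn F m x =
      ∑ j ∈ Finset.range m, ((if s • x ∈ F j then (1:ℝ) else 0) -
        (if x ∈ F j then (1:ℝ) else 0)) := by
    rw [Finset.sum_sub_distrib, cn, cn, Finset.sum_boole, Finset.sum_boole]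
  have h4 : |(cn F m (s • x) : ℝ) - cn F m x| ≤
      ∑ j ∈ Finset.range m, ((if x ∈ Out F s j then (1:ℝ) else 0) +
        (if s • x ∈ Out F s⁻¹ j then (1:ℝ) else 0)) := by
    rw [h3]
    refine (Finset.abs_sum_le_sum_abs _ _).trans (Finset.sum_le_sum fun j _ => ?_)
    have e1 : x ∈ Out F s j ↔ x ∈ F j ∧ s • x ∉ F j := Iff.rfl
    have e2 : s • x ∈ Out F s⁻¹ j ↔ s • x ∈ F j ∧ x ∉ F j := by
      show s • x ∈ F j ∧ s⁻¹ • (s • x) ∉ F j ↔ _
      rw [inv_smul_smul]
    rw [if_congr e1 rfl rfl, if_congr e2 rfl rfl]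
    by_cases p : x ∈ F j <;> by_cases q : s • x ∈ F j <;> simp [p, q]
  refine le_trans ?_ h4
  have h5 : |(cn F m (s • x) : ℝ) - cn F m x| ≤ 1 := by
    rw [abs_le]
    have i1 : (cn F m x : ℝ) ≤ cn F m (s • x) + 1 := by exact_mod_cast h1
    have i2 : (cn F m (s • x) : ℝ) ≤ cn F m x + 1 := by exact_mod_cast h2
    constructor <;> linarith
  rw [← sq_abs]
  nlinarith [abs_nonneg ((cn F m (s • x) : ℝ) - cn F m x)]

end

/-- Extensive exactness from a sequence of sets with small boundaries. -/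
theorem of_levels {G : Type u} {X : Type v} [Group G] [MulAction G X]
    (H : ∀ (S' : Finset G) (E₀ : Finset X), ∃ (F : ℕ → Set X) (C : ℕ), Monotone F ∧
      (∀ x ∈ E₀, x ∈ F 0) ∧ (∀ k, ∀ s ∈ S', (Out F s k).encard ≤ C) ∧
      (∀ k, ∀ s ∈ S', ∀ x ∈ F k, s • x ∈ F (k + 1)) ∧
      ∀ k, ∃ (V : Type w) (_ : MulAction G V) (π : X → V), (∀ (g : G) x, π (g • x) = g • π x) ∧
        ExtensivelyExact G V ∧ ∀ v, {x | x ∈ F k ∧ π x = v}.Finite) :
    ExtensivelyExact G X := by
  classical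
  intro S E₀ ε hε
  let S' : Finset G := S ∪ S.image fun s => s⁻¹
  have hS1 : ∀ s ∈ S, s ∈ S' := fun s hs => Finset.mem_union_left _ hs
  have hS2 : ∀ s ∈ S, s⁻¹ ∈ S' := fun s hs =>
    Finset.mem_union_right _ (Finset.mem_image_of_mem _ hs)
  obtain ⟨F, C, hF, hE₀, hbad, hstep, hVV⟩ := H S' E₀
  obtain ⟨m, hm⟩ := exists_nat_gt ((2 * C : ℝ) / (ε / 8) ^ 2)
  have hm1 : (2 * C : ℝ) < m * (ε / 8) ^ 2 := (div_lt_iff₀ (by positivity)).mp hm
  have hm0 : (0:ℝ) < m := by
    by_contra hcon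
    have h1 : (m:ℝ) ≤ 0 := not_lt.mp hcon
    have h2 : (0:ℝ) ≤ C := Nat.cast_nonneg _
    have h3 : (0:ℝ) < (ε / 8) ^ 2 := by positivity
    nlinarith
  obtain ⟨V, _, π, hπ, hV, hfin⟩ := hVV m
  let a : X → ℝ := fun x => cn F m x / m
  have hcnt : ∀ x, cn F m x ≤ m := by
    intro x
    refine (Finset.card_filter_le _ _).trans ?_
    rw [Finset.card_range]
  refine relRec π hπ hV S E₀ hε a ?_ ?_ ?_ ?_
  · intro x
    refine ⟨by positivity, ?_⟩
    rw [div_le_one hm0]
    exact_mod_cast hcnt x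
  · intro x hx
    have h1 : cn F m x = m := by
      rw [cn, Finset.filter_true_of_mem, Finset.card_range]
      intro j _
      exact hF (Nat.zero_le j) (hE₀ x hx)
    simp only [a, h1]
    exact div_self hm0.ne'
  · intro v
    refine (hfin v).subset ?_
    rintro x ⟨hx1, hx2⟩
    have h1 : cn F m x ≠ 0 := by
      intro h
      apply hx2
      simp only [a, h]
      simp
    obtain ⟨j, hj⟩ := Finset.card_ne_zero.mp h1
    obtain ⟨hj1, hj2⟩ := Finset.mem_filter.mp hj
    exact ⟨hF (Finset.mem_range.mp hj1).le hj2, hx1⟩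
  · intro s hs T
    have h1 : ∀ x, (a (s • x) - a x) ^ 2 ≤ (∑ j ∈ Finset.range m,
        ((if x ∈ Out F s j then (1:ℝ) else 0) +
        (if s • x ∈ Out F s⁻¹ j then (1:ℝ) else 0))) / (m:ℝ) ^ 2 := by
      intro x
      have h2 := cn_sq F m s x (fun k hk => hstep k s (hS1 s hs) x hk) (fun k hk => by
        have := hstep k s⁻¹ (hS2 s hs) _ hk
        rwa [inv_smul_smul] at this)
      have h3 : (a (s • x) - a x) ^ 2 =
          ((cn F m (s • x) : ℝ) - cn F m x) ^ 2 / (m:ℝ) ^ 2 := by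
        simp only [a]
        rw [← sub_div, div_pow]
      rw [h3]
      exact div_le_div_of_nonneg_right h2 (by positivity)
    refine (Finset.sum_le_sum fun x _ => h1 x).trans ?_
    rw [← Finset.sum_div, Finset.sum_comm]
    have hcardle : ∀ (B : Set X) (R : Finset X), B.encard ≤ C →
        ((R.filter fun x => x ∈ B).card : ℝ) ≤ C := by
      intro B R hB
      have i1 : ((R.filter fun x => x ∈ B : Finset _) : Set X) ⊆ B := by
        intro x hx
        exact (Finset.mem_filter.mp hx).2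
      have i2 := (Set.encard_le_encard i1).trans hB
      rw [Set.encard_coe_eq_coe_finsetCard, Nat.cast_le] at i2
      exact_mod_cast i2
    have h4 : ∀ j ∈ Finset.range m, ∑ x ∈ T, ((if x ∈ Out F s j then (1:ℝ) else 0) +
        (if s • x ∈ Out F s⁻¹ j then (1:ℝ) else 0)) ≤ 2 * C := by
      intro j _
      rw [Finset.sum_add_distrib]
      have i1 : ∑ x ∈ T, (if x ∈ Out F s j then (1:ℝ) else 0) ≤ C := by
        rw [Finset.sum_boole]
        exact hcardle _ _ (hbad j s (hS1 s hs))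
      have i2 : ∑ x ∈ T, (if s • x ∈ Out F s⁻¹ j then (1:ℝ) else 0) ≤ C := by
        have i3 : ∑ x ∈ T, (if s • x ∈ Out F s⁻¹ j then (1:ℝ) else 0) =
            ∑ y ∈ T.map (MulAction.toPerm s).toEmbedding,
              (if y ∈ Out F s⁻¹ j then (1:ℝ) else 0) := by
          rw [Finset.sum_map]
          rfl
        rw [i3, Finset.sum_boole]
        exact hcardle _ _ (hbad j s⁻¹ (hS2 s hs))
      linarith
    have h5 := Finset.sum_le_sum h4
    rw [Finset.sum_const, Finset.card_range, nsmul_eq_mul] at h5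
    rw [div_le_iff₀ (by positivity)]
    refine h5.trans ?_
    nlinarith

end Pool.Agent.H829.EG
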