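import Mathlib

/-!
# Homeomorphisms of bounded type of closed subsets of products of finite sets

`X` is a closed subset of the product of the finite sets `α n` (for instance the path space of a
Bratteli diagram, or the boundary of a rooted tree), and `G` acts on `X` by homeomorphisms.
-/

namespace Pool.Agent.H829.EG.Path

open Topology

universe u v

section

variable {G : Type u} {α : ℕ → Type v} {X : Set ((n : ℕ) → α n)} [Group G] [MulAction G X]

/-- On the points of `X` that share their first `n` letters with `x`, the element `g` only replaces
these first `n` letters by the first `n` letters of `g • x`. -/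
def RegularAt (g : G) (n : ℕ) (x : X) : Prop :=
  ∀ y : X, (∀ i < n, y.1 i = x.1 i) →
    (∀ i < n, (g • y).1 i = (g • x).1 i) ∧ ∀ i, n ≤ i → (g • y).1 i = y.1 i

/-- The singular words of length `n` of `g`: the first `n` letters of the points `x` of `X` at which
`g` is not regular at level `n`. -/
def singularWords (g : G) (n : ℕ) : Set ((i : Fin n) → α i.1) :=
  {v | ∃ x : X, (∀ i : Fin n, x.1 i.1 = v i) ∧ ¬ RegularAt g n x}

end

variable (G : Type u) {α : ℕ → Type v} (X : Set ((n : ℕ) → α n)) [Group G] [MulAction G X]

/-- Bounded type: for every finite subset `S` of `G` there is a number `C` such that for infinitely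
many `n` every element of `S` has at most `C` singular words of length `n`. -/
def BoundedType : Prop :=
  ∀ S : Finset G, ∃ C : ℕ, ∀ N : ℕ, ∃ n, N ≤ n ∧ ∀ s ∈ S, (singularWords (X := X) s n).encard ≤ C

variable [(n : ℕ) → TopologicalSpace (α n)] [ContinuousConstSMul G X]

variable {X}

/-- The elements of the stabiliser of `x` that act trivially on a neighbourhood of `x`. -/
def germKernel (x : X) : Subgroup (MulAction.stabilizer G x) where
  carrier := {g | ∀ᶠ y in 𝓝 x, (g : G) • y = y}
  one_mem' := Filter.Eventually.of_forall fun y => by rw [Subgroup.coe_one, one_smul]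
  mul_mem' := by
    intro g h hg hh
    filter_upwards [hg, hh] with y hy hy'
    rw [Subgroup.coe_mul, mul_smul, hy', hy]
  inv_mem' := by
    intro g hg
    filter_upwards [hg] with y hy
    rw [Subgroup.coe_inv, inv_smul_eq_iff, hy]

instance germKernel_normal (x : X) : (germKernel G x).Normal where
  conj_mem := by
    intro g hg h
    have h1 : Filter.Tendsto (fun y : X => ((h⁻¹ : MulAction.stabilizer G x) : G) • y) (𝓝 x)
        (𝓝 x) := by
      have h2 := (continuous_const_smul ((h⁻¹ : MulAction.stabilizer G x) : G)).tendsto x
      rwa [(h⁻¹).2] at h2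
    have h3 := h1.eventually hg
    show ∀ᶠ y in 𝓝 x, ((h * g * h⁻¹ : MulAction.stabilizer G x) : G) • y = y
    filter_upwards [h3] with y hy
    rw [Subgroup.coe_mul, Subgroup.coe_mul, mul_smul, mul_smul, hy, Subgroup.coe_inv,
      smul_inv_smul]

/-- The group of germs at `x` of the elements of `G` that fix `x`. -/
abbrev GermGroup (x : X) : Type u := MulAction.stabilizer G x ⧸ germKernel G x

end Pool.Agent.H829.EG.Path
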