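import Pool.Agent.H829.EG.Lev
import Pool.Agent.H829.EG.PathDefs

/-!
# Homeomorphisms of bounded type: the tail subgroupoid
-/

namespace Pool.Agent.H829.EG.Path

open Pool.Agent.N506.EX Topology

universe u v

section

variable {G : Type u} {α : ℕ → Type v} {X : Set ((n : ℕ) → α n)} [Group G] [MulAction G X]

theorem RegularAt.self {g : G} {n : ℕ} {x : X} (h : RegularAt g n x) (i : ℕ) (hi : n ≤ i) :
    (g • x).1 i = x.1 i := (h x fun _ _ => rfl).2 i hi

theorem RegularAt.mono {g : G} {n m : ℕ} {x : X} (h : RegularAt g n x) (hnm : n ≤ m) :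
    RegularAt g m x := by
  intro y hy
  obtain ⟨h1, h2⟩ := h y fun i hi => hy i (hi.trans_le hnm)
  refine ⟨fun i hi => ?_, fun i hi => h2 i (hnm.trans hi)⟩
  rcases lt_or_ge i n with hin | hin
  · exact h1 i hin
  · rw [h2 i hin, hy i hi, h.self i hin]

theorem RegularAt.congr {g : G} {n : ℕ} {x y : X} (h : RegularAt g n x)
    (hxy : ∀ i < n, y.1 i = x.1 i) : RegularAt g n y := by
  intro z hz
  obtain ⟨h1, h2⟩ := h z fun i hi => (hz i hi).trans (hxy i hi)
  exact ⟨fun i hi => (h1 i hi).trans ((h y hxy).1 i hi).symm, h2⟩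

theorem regularAt_one (n : ℕ) (x : X) : RegularAt (1 : G) n x := by
  intro y hy
  rw [one_smul, one_smul]
  exact ⟨hy, fun _ _ => rfl⟩

theorem RegularAt.mul {g h : G} {n : ℕ} {x : X} (hh : RegularAt h n x)
    (hg : RegularAt g n (h • x)) : RegularAt (g * h) n x := by
  intro y hy
  obtain ⟨h1, h2⟩ := hh y hy
  obtain ⟨h3, h4⟩ := hg _ h1
  rw [mul_smul, mul_smul]
  exact ⟨h3, fun i hi => (h4 i hi).trans (h2 i hi)⟩

/-- The prefix of length `n`. -/
def pre (n : ℕ) (x : X) : (i : Fin n) → α i.1 := fun i => x.1 i.1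

theorem pre_mem {g : G} {n : ℕ} {x : X} (h : ¬ RegularAt g n x) :
    pre n x ∈ singularWords (X := X) g n := ⟨x, fun _ => rfl, h⟩

/-- The singular points of `g`. -/
def Sing (g : G) : Set X := {x | ∀ n, ¬ RegularAt g n x}

theorem sing_finite (hb : BoundedType G X) (g : G) : (Sing (X := X) g).Finite := by
  classical
  by_contra hinf
  obtain ⟨C, hC⟩ := hb {g}
  obtain ⟨T, hT, hTc⟩ := Set.Infinite.exists_subset_card_eq hinf (C + 1)
  have hsep : ∃ N, ∀ x ∈ T, ∀ y ∈ T, (∀ i < N, x.1 i = y.1 i) → x = y := by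
    have h1 : ∀ p : X × X, ∃ N, (∀ i < N, p.1.1 i = p.2.1 i) → p.1 = p.2 := by
      intro p
      by_cases h : p.1 = p.2
      · exact ⟨0, fun _ => h⟩
      · have h' : p.1.1 ≠ p.2.1 := fun h' => h (Subtype.ext h')
        obtain ⟨i, hi⟩ := Function.ne_iff.mp h'
        exact ⟨i + 1, fun h2 => absurd (h2 i (Nat.lt_succ_self i)) hi⟩
    choose f hf using h1
    refine ⟨(T ×ˢ T).sup f, fun x hx y hy hxy => hf (x, y) fun i hi => hxy i ?_⟩
    exact hi.trans_le (Finset.le_sup (f := f) (Finset.mk_mem_product hx hy))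
  obtain ⟨N, hN⟩ := hsep
  obtain ⟨n, hn, h1⟩ := hC N
  have h2 := h1 g (Finset.mem_singleton_self g)
  have h3 : Set.InjOn (pre (X := X) n) T := by
    intro x hx y hy hxy
    refine hN x hx y hy fun i hi => ?_
    exact congrFun hxy ⟨i, hi.trans_le hn⟩
  have h4 : pre (X := X) n '' T ⊆ singularWords (X := X) g n := by
    rintro _ ⟨x, hx, rfl⟩
    exact pre_mem (hT hx n)
  have h5 := Set.encard_le_encard h4
  rw [h3.encard_image, Set.encard_coe_eq_coe_finsetCard, hTc] at h5
  have h6 := h5.trans h2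
  have h7 : ((C + 1 : ℕ) : ℕ∞) ≤ (C : ℕ∞) := h6
  rw [Nat.cast_le] at h7
  omega

end

section

variable {α : ℕ → Type v} [(n : ℕ) → TopologicalSpace (α n)]

/-- Neighbourhoods contain cylinders. -/
theorem exists_cyl_pi {x : (n : ℕ) → α n} {u : Set ((n : ℕ) → α n)} (hu : u ∈ 𝓝 x) :
    ∃ n, ∀ y : (n : ℕ) → α n, (∀ i < n, y i = x i) → y ∈ u := by
  classical
  rw [nhds_pi, Filter.mem_pi] at hu
  obtain ⟨I, hI, t, ht, htu⟩ := hu
  refine ⟨hI.toFinset.sup id + 1, fun y hy => htu fun i hi => ?_⟩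
  have h1 : i ≤ hI.toFinset.sup id := Finset.le_sup (f := id) (hI.mem_toFinset.mpr hi)
  rw [hy i (Nat.lt_succ_of_le h1)]
  exact mem_of_mem_nhds (ht i)

variable {X : Set ((n : ℕ) → α n)}

theorem exists_cyl {x : X} {u : Set X} (hu : u ∈ 𝓝 x) :
    ∃ n, ∀ y : X, (∀ i < n, y.1 i = x.1 i) → y ∈ u := by
  rw [mem_nhds_subtype] at hu
  obtain ⟨w, hw, hwu⟩ := hu
  obtain ⟨n, hn⟩ := exists_cyl_pi hw
  exact ⟨n, fun y hy => hwu (hn y.1 hy)⟩

theorem cyl_mem [∀ n, DiscreteTopology (α n)] (x : X) (n : ℕ) :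
    {y : X | ∀ i < n, y.1 i = x.1 i} ∈ 𝓝 x := by
  have h1 : ∀ i, {y : X | y.1 i = x.1 i} ∈ 𝓝 x := by
    intro i
    have hc : Continuous fun y : X => y.1 i := (continuous_apply i).comp continuous_subtype_val
    have h2 : IsOpen ((fun y : X => y.1 i) ⁻¹' {x.1 i}) := (isOpen_discrete _).preimage hc
    exact h2.mem_nhds rfl
  have h2 : {y : X | ∀ i < n, y.1 i = x.1 i} = ⋂ i ∈ Set.Iio n, {y : X | y.1 i = x.1 i} := by
    ext y
    simp
  rw [h2]
  exact (Filter.biInter_mem (Set.finite_Iio n)).mpr fun i _ => h1 i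

variable {G : Type u} [Group G] [MulAction G X] [ContinuousConstSMul G X]

theorem cont_cyl [∀ n, DiscreteTopology (α n)] (g : G) (x : X) (n : ℕ) :
    ∃ m, ∀ y : X, (∀ i < m, y.1 i = x.1 i) → ∀ i < n, (g • y).1 i = (g • x).1 i :=
  exists_cyl ((continuous_const_smul g).continuousAt.preimage_mem_nhds (cyl_mem (g • x) n))

theorem RegularAt.inv [∀ n, DiscreteTopology (α n)] {g : G} {n : ℕ} {x : X}
    (h : RegularAt g n x) : ∃ m, RegularAt g⁻¹ m (g • x) := by
  obtain ⟨m, hm⟩ := cont_cyl g⁻¹ (g • x) n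
  refine ⟨max n m, fun z hz => ?_⟩
  have h1 : ∀ i < n, (g⁻¹ • z).1 i = x.1 i := by
    intro i hi
    have := hm z (fun j hj => hz j (lt_max_of_lt_right hj)) i hi
    rwa [inv_smul_smul] at this
  obtain ⟨-, h3⟩ := h _ h1
  rw [smul_inv_smul] at h3
  rw [inv_smul_smul]
  refine ⟨fun i hi => ?_, fun i hi => (h3 i ((le_max_left _ _).trans hi)).symm⟩
  rcases lt_or_ge i n with hin | hin
  · exact h1 i hin
  · rw [← h3 i hin, hz i hi, h.self i hin]

variable (X G)

/-- The tail subgroupoid. -/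
def tailGpd [∀ n, DiscreteTopology (α n)] (hb : BoundedType G X) : CofiniteSubgroupoid G X where
  Mem g x := ∃ n, RegularAt g n x
  one x := ⟨0, regularAt_one 0 x⟩
  inv g x := fun ⟨_, h⟩ => h.inv
  mul g h x := fun ⟨n, hn⟩ ⟨m, hm⟩ =>
    ⟨max n m, (hn.mono (le_max_left _ _)).mul (hm.mono (le_max_right _ _))⟩
  cofinite g := by
    refine (sing_finite (X := X) hb g).subset ?_
    intro x hx n hn
    exact hx ⟨n, hn⟩

end

section

variable {G : Type u} {α : ℕ → Type v} {X : Set ((n : ℕ) → α n)} [Group G] [MulAction G X]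

variable (G X) in
/-- The elements which are regular at level `n` everywhere, and their inverses too. -/
def Kn (n : ℕ) : Subgroup G where
  carrier := {g | ∀ x : X, RegularAt g n x ∧ RegularAt g⁻¹ n x}
  one_mem' := fun x => ⟨regularAt_one n x, by rw [inv_one]; exact regularAt_one n x⟩
  mul_mem' := fun {g h} hg hh x => ⟨(hh x).1.mul (hg _).1, by
    rw [mul_inv_rev]
    exact (hg x).2.mul (hh _).2⟩
  inv_mem' := fun {g} hg x => ⟨(hg x).2, by rw [inv_inv]; exact (hg x).1⟩

theorem Kn_mono {n m : ℕ} (h : n ≤ m) : Kn G X n ≤ Kn G X m :=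
  fun _ hg x => ⟨(hg x).1.mono h, (hg x).2.mono h⟩

theorem Kn_finite [FaithfulSMul G X] [∀ n, Finite (α n)] (n : ℕ) : Finite (Kn G X n) := by
  classical
  let P : Type v := {v : (i : Fin n) → α i.1 // ∃ x : X, pre n x = v}
  have hP : Finite P := inferInstance
  have hrep : ∀ v : P, ∃ x : X, pre n x = v.1 := fun v => v.2
  choose r hr using hrep
  let e : Kn G X n → P → P := fun g v => ⟨pre n ((g : G) • r v), _, rfl⟩
  refine Finite.of_injective e ?_
  rintro ⟨g, hg⟩ ⟨h, hh⟩ hgh
  apply Subtype.ext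
  refine FaithfulSMul.eq_of_smul_eq_smul (α := X) fun x => ?_
  have h1 := congrFun hgh ⟨pre n x, x, rfl⟩
  have h2 : pre n (g • r ⟨pre n x, x, rfl⟩) = pre n (h • r ⟨pre n x, x, rfl⟩) :=
    congrArg Subtype.val h1
  have h3 : ∀ i < n, x.1 i = (r ⟨pre n x, x, rfl⟩ : X).1 i := by
    intro i hi
    exact (congrFun (hr ⟨pre n x, x, rfl⟩) ⟨i, hi⟩).symm
  obtain ⟨a1, a2⟩ := (hg (r ⟨pre n x, x, rfl⟩)).1 x h3
  obtain ⟨b1, b2⟩ := (hh (r ⟨pre n x, x, rfl⟩)).1 x h3
  apply Subtype.ext
  funext i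
  rcases lt_or_ge i n with hi | hi
  · exact (a1 i hi).trans ((congrFun h2 ⟨i, hi⟩).trans (b1 i hi).symm)
  · exact (a2 i hi).trans (b2 i hi).symm

end

section

variable {G : Type u} {α : ℕ → Type v} {X : Set ((n : ℕ) → α n)} [Group G] [MulAction G X]
  [(n : ℕ) → TopologicalSpace (α n)] [∀ n, DiscreteTopology (α n)] [∀ n, Finite (α n)]

theorem exists_level (hX : IsClosed X) (g : G) (hg : ∀ x : X, ∃ n, RegularAt g n x) :
    ∃ n, ∀ x : X, RegularAt g n x := by
  have hcomp : CompactSpace X := isCompact_iff_compactSpace.mp hX.isCompact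
  have hU : ∀ n, IsOpen {x : X | RegularAt g n x} := by
    intro n
    rw [isOpen_iff_mem_nhds]
    intro x hx
    filter_upwards [cyl_mem x n] with y hy
    exact RegularAt.congr hx hy
  obtain ⟨n, hn⟩ := isCompact_univ.elim_directed_cover (fun n => {x : X | RegularAt g n x}) hU
    (fun x _ => Set.mem_iUnion.mpr (hg x))
    (directed_of_isDirected_le fun n m hnm x hx => RegularAt.mono hx hnm)
  exact ⟨n, fun x => hn (Set.mem_univ x)⟩

theorem Kall_ex [FaithfulSMul G X] (hX : IsClosed X) (Q : Subgroup G)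
    (hQ : ∀ g ∈ Q, ∀ x : X, ∃ n, RegularAt g n x) : Ex Q := by
  classical
  refine Ex.of_fg ?_
  intro H hH
  obtain ⟨T, hT⟩ := hH
  have h1 : ∀ t : Q, ∃ n, (t : G) ∈ Kn G X n := by
    intro t
    obtain ⟨n, hn⟩ := exists_level hX (t : G) (hQ t t.2)
    obtain ⟨m, hm⟩ := exists_level hX ((t : G)⁻¹) (hQ _ (Q.inv_mem t.2))
    exact ⟨max n m, fun x => ⟨(hn x).mono (le_max_left _ _), (hm x).mono (le_max_right _ _)⟩⟩
  choose f hf using h1
  have h2 : ∀ h ∈ H, (h : G) ∈ Kn G X (T.sup f) := by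
    intro h hh
    rw [← hT] at hh
    induction hh using Subgroup.closure_induction with
    | mem x hx => exact Kn_mono (Finset.le_sup (f := f) hx) (hf x)
    | one => exact Subgroup.one_mem _
    | mul x y _ _ hx hy => exact Subgroup.mul_mem _ hx hy
    | inv x _ hx => exact Subgroup.inv_mem _ hx
  let j : H →* Kn G X (T.sup f) :=
    { toFun := fun h => ⟨(h : Q), h2 h h.2⟩
      map_one' := rfl
      map_mul' := fun _ _ => rfl }
  have hfin : Finite (Kn G X (T.sup f)) := Kn_finite _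
  refine Ex.of_injective Ex.of_finite j ?_
  intro a b hab
  have h3 : ((a : Q) : G) = ((b : Q) : G) :=
    congrArg (fun z : Kn G X (T.sup f) => (z : G)) hab
  exact Subtype.ext (Subtype.ext h3)

variable [ContinuousConstSMul G X]

/-- The subgroups whose elements fix the points of `E` and are regular off `E`. -/
theorem fix_ex [FaithfulSMul G X] (hX : IsClosed X) (hgerm : ∀ x : X, Ex (GermGroup G x))
    (E : Finset X) : ∀ (Q : Subgroup G), (∀ g ∈ Q, ∀ x ∈ E, g • x = x) →
    (∀ g ∈ Q, ∀ x, x ∉ E → ∃ n, RegularAt g n x) → Ex Q := by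
  classical
  induction E using Finset.induction_on with
  | empty =>
    intro Q _ hQ
    exact Kall_ex hX Q fun g hg x => hQ g hg x (Finset.notMem_empty x)
  | insert x E hx ih =>
    intro Q hQ1 hQ2
    let i : Q →* MulAction.stabilizer G x :=
      Subgroup.inclusion fun g hg => hQ1 g hg x (Finset.mem_insert_self _ _)
    let q : Q →* GermGroup G x := (QuotientGroup.mk' (germKernel G x)).comp i
    refine Ex.ext q (hgerm x) ?_
    have h1 : Ex (q.ker.map Q.subtype) := by
      refine ih _ ?_ ?_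
      · rintro g ⟨g', -, rfl⟩ y hy
        exact hQ1 g' g'.2 y (Finset.mem_insert_of_mem hy)
      · rintro g ⟨g', hg', rfl⟩ y hy
        by_cases hyx : y = x
        · subst hyx
          have h2 : i g' ∈ germKernel G y := (QuotientGroup.eq_one_iff _).mp hg'
          obtain ⟨n, hn⟩ := exists_cyl (x := y) h2
          refine ⟨n, fun z hz => ?_⟩
          have h3 : (g' : G) • z = z := hn z hz
          have h4 : (g' : G) • y = y := hQ1 g' g'.2 y (Finset.mem_insert_self _ _)
          show (∀ i < n, ((g' : G) • z).1 i = ((g' : G) • y).1 i) ∧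
            ∀ i, n ≤ i → ((g' : G) • z).1 i = z.1 i
          rw [h3, h4]
          exact ⟨hz, fun _ _ => rfl⟩
        · refine hQ2 g' g'.2 y fun h => ?_
          rcases Finset.mem_insert.mp h with h | h
          · exact hyx h
          · exact hy h
    refine Ex.of_injective h1 (q.ker.equivMapOfInjective Q.subtype Q.subtype_injective).toMonoidHom ?_
    exact (q.ker.equivMapOfInjective Q.subtype Q.subtype_injective).injective

theorem off_ex [FaithfulSMul G X] (hX : IsClosed X) (hb : BoundedType G X)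
    (hgerm : ∀ x : X, Ex (GermGroup G x)) (E : Finset X) :
    Ex ((tailGpd X G hb).offSubgroup E) := by
  classical
  set P := (tailGpd X G hb).offSubgroup E with hP
  have hPE : ∀ g : P, ∀ x, (g : G) • x ∈ E ↔ x ∈ E := fun g x => g.2.1 x
  let q : P →* Equiv.Perm E :=
    { toFun := fun g =>
        { toFun := fun x => ⟨(g : G) • x.1, (hPE g x.1).mpr x.2⟩
          invFun := fun x => ⟨(g : G)⁻¹ • x.1, by
            rw [← hPE g, smul_inv_smul]
            exact x.2⟩
          left_inv := fun x => Subtype.ext (inv_smul_smul _ _)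
          right_inv := fun x => Subtype.ext (smul_inv_smul _ _) }
      map_one' := by
        ext1 x
        exact Subtype.ext (one_smul G x.1)
      map_mul' := fun g h => by
        ext1 x
        exact Subtype.ext (mul_smul (g : G) (h : G) x.1) }
  refine Ex.ext q Ex.of_finite ?_
  have h1 : Ex (q.ker.map P.subtype) := by
    refine fix_ex hX hgerm E _ ?_ ?_
    · rintro g ⟨g', hg', rfl⟩ x hx
      have h2 : q g' = 1 := hg'
      exact congrArg (fun e : Equiv.Perm E => ((e ⟨x, hx⟩ : E) : X)) h2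
    · rintro g ⟨g', hg', rfl⟩ x hx
      exact g'.2.2 x hx
  refine Ex.of_injective h1 (q.ker.equivMapOfInjective P.subtype P.subtype_injective).toMonoidHom ?_
  exact (q.ker.equivMapOfInjective P.subtype P.subtype_injective).injective

end

end Pool.Agent.H829.EG.Path
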