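import Pool.Graph.R_pool_sql_team_seeded_63374d34.N506.EXM

/-!
# Product measures on the finite subsets of a set
-/

namespace Pool.Agent.H829.EG

open Pool.Agent.N506.EX

universe u v

variable {X : Type u}

open scoped Classical in
/-- The square root of the weight of `A` for the product measure. -/
noncomputable def pw (θ : X → ℝ) (W A : Finset X) : ℝ :=
  (∏ x ∈ A, Real.sin (θ x)) * ∏ x ∈ W \ A, Real.cos (θ x)

theorem pw_inner (θ θ' : X → ℝ) (W : Finset X) :
    ∑ A ∈ W.powerset, pw θ W A * pw θ' W A = ∏ x ∈ W, Real.cos (θ x - θ' x) := by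
  classical
  have h : ∀ x ∈ W, Real.cos (θ x - θ' x) =
      Real.sin (θ x) * Real.sin (θ' x) + Real.cos (θ x) * Real.cos (θ' x) := by
    intro x _
    rw [Real.cos_sub]
    ring
  rw [Finset.prod_congr rfl h, Finset.prod_add]
  refine Finset.sum_congr rfl fun A _ => ?_
  rw [Finset.prod_mul_distrib, Finset.prod_mul_distrib, pw, pw]
  have h2 : ∀ (i j : DecidableEq X), @SDiff.sdiff _ (@Finset.instSDiff X i) W A =
      @SDiff.sdiff _ (@Finset.instSDiff X j) W A := by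
    intro i j
    rw [Subsingleton.elim i j]
  ring

open scoped Classical in
/-- The product measure. -/
noncomputable def pm (θ : X → ℝ) (W : Finset X) : Finset X →₀ ℝ :=
  ∑ A ∈ W.powerset, Finsupp.single A ((pw θ W A) ^ 2)

open scoped Classical in
theorem pm_apply (θ : X → ℝ) (W A : Finset X) :
    pm θ W A = if A ∈ W.powerset then (pw θ W A) ^ 2 else 0 := by
  classical
  rw [pm, Finsupp.finsetSum_apply]
  simp only [Finsupp.single_apply]
  rw [Finset.sum_ite_eq']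

theorem pm_nonneg (θ : X → ℝ) (W A : Finset X) : 0 ≤ pm θ W A := by
  rw [pm_apply]
  split_ifs
  · positivity
  · exact le_rfl

theorem pm_support (θ : X → ℝ) (W : Finset X) : (pm θ W).support ⊆ W.powerset := by
  intro A hA
  rw [Finsupp.mem_support_iff, pm_apply] at hA
  by_contra h
  rw [if_neg h] at hA
  exact hA rfl

theorem pw_sq_sum (θ : X → ℝ) (W : Finset X) : ∑ A ∈ W.powerset, (pw θ W A) ^ 2 = 1 := by
  have h := pw_inner θ θ W
  simp only [sub_self, Real.cos_zero, Finset.prod_const_one] at h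
  rw [← h]
  exact Finset.sum_congr rfl fun A _ => sq _

theorem pm_sum (θ : X → ℝ) (W : Finset X) : ((pm θ W).sum fun _ t => t) = 1 := by
  rw [Finsupp.sum_of_support_subset _ (pm_support θ W) _ (fun _ _ => rfl), ← pw_sq_sum θ W]
  refine Finset.sum_congr rfl fun A hA => ?_
  rw [pm_apply, if_pos hA]

theorem prod_cos_ge (δ : X → ℝ) (W : Finset X) (h : ∀ x ∈ W, |δ x| ≤ Real.pi / 2) :
    1 - (∑ x ∈ W, (δ x) ^ 2) / 2 ≤ ∏ x ∈ W, Real.cos (δ x) ∧ 0 ≤ ∏ x ∈ W, Real.cos (δ x) ∧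
      ∏ x ∈ W, Real.cos (δ x) ≤ 1 := by
  classical
  induction W using Finset.induction_on with
  | empty => simp
  | insert a W ha ih =>
    obtain ⟨h1, h2, h3⟩ := ih fun x hx => h x (Finset.mem_insert_of_mem hx)
    rw [Finset.prod_insert ha, Finset.sum_insert ha]
    have h4 := abs_le.mp (h a (Finset.mem_insert_self _ _))
    have h5 : 0 ≤ Real.cos (δ a) := Real.cos_nonneg_of_neg_pi_div_two_le_of_le (by linarith [h4.1]) h4.2
    have h6 : Real.cos (δ a) ≤ 1 := Real.cos_le_one _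
    have h7 : 1 - (δ a) ^ 2 / 2 ≤ Real.cos (δ a) := Real.one_sub_sq_div_two_le_cos
    refine ⟨?_, mul_nonneg h5 h2, mul_le_one₀ h6 h2 h3⟩
    nlinarith [mul_nonneg (sub_nonneg.mpr h6) (sub_nonneg.mpr h3)]

theorem pm_l1 (θ θ' : X → ℝ) (W : Finset X) (h : ∀ x ∈ W, 0 ≤ θ x ∧ θ x ≤ Real.pi / 2)
    (h' : ∀ x ∈ W, 0 ≤ θ' x ∧ θ' x ≤ Real.pi / 2) :
    l1 (pm θ W - pm θ' W) ≤ 2 * Real.sqrt (∑ x ∈ W, (θ x - θ' x) ^ 2) := by
  classical
  have hs : (pm θ W - pm θ' W).support ⊆ W.powerset := by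
    refine (Finsupp.support_sub).trans ?_
    exact Finset.union_subset (pm_support θ W) (pm_support θ' W)
  rw [l1_eq _ _ hs]
  have hnn : ∀ (η : X → ℝ), (∀ x ∈ W, 0 ≤ η x ∧ η x ≤ Real.pi / 2) → ∀ A ∈ W.powerset,
      0 ≤ pw η W A := by
    intro η hη A hA
    rw [Finset.mem_powerset] at hA
    have hpi := Real.pi_pos
    refine mul_nonneg (Finset.prod_nonneg fun x hx => ?_) (Finset.prod_nonneg fun x hx => ?_)
    · have := hη x (hA hx)
      exact Real.sin_nonneg_of_nonneg_of_le_pi this.1 (by linarith)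
    · have := hη x (Finset.mem_sdiff.mp hx).1
      exact Real.cos_nonneg_of_neg_pi_div_two_le_of_le (by linarith) this.2
  have h1 : ∀ A ∈ W.powerset, |(pm θ W - pm θ' W) A| =
      |pw θ W A - pw θ' W A| * (pw θ W A + pw θ' W A) := by
    intro A hA
    rw [Finsupp.sub_apply, pm_apply, pm_apply, if_pos hA, if_pos hA]
    have h2 : (pw θ W A) ^ 2 - (pw θ' W A) ^ 2 =
        (pw θ W A - pw θ' W A) * (pw θ W A + pw θ' W A) := by ring
    rw [h2, abs_mul, abs_of_nonneg (add_nonneg (hnn θ h A hA) (hnn θ' h' A hA))]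
  rw [Finset.sum_congr rfl h1]
  have hCS := Finset.sum_mul_sq_le_sq_mul_sq W.powerset (fun A => |pw θ W A - pw θ' W A|)
    (fun A => pw θ W A + pw θ' W A)
  have e1 : ∑ A ∈ W.powerset, |pw θ W A - pw θ' W A| ^ 2 ≤ ∑ x ∈ W, (θ x - θ' x) ^ 2 := by
    have e2 : ∑ A ∈ W.powerset, |pw θ W A - pw θ' W A| ^ 2 =
        ∑ A ∈ W.powerset, (pw θ W A) ^ 2 + ∑ A ∈ W.powerset, (pw θ' W A) ^ 2 -
          2 * ∑ A ∈ W.powerset, pw θ W A * pw θ' W A := by
      rw [Finset.mul_sum, ← Finset.sum_add_distrib, ← Finset.sum_sub_distrib]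
      refine Finset.sum_congr rfl fun A _ => ?_
      rw [sq_abs]
      ring
    rw [e2, pw_sq_sum, pw_sq_sum, pw_inner]
    have e3 := (prod_cos_ge (fun x => θ x - θ' x) W (by
      intro x hx
      have i1 := h x hx
      have i2 := h' x hx
      rw [abs_le]
      constructor <;> linarith)).1
    linarith
  have e4 : ∑ A ∈ W.powerset, (pw θ W A + pw θ' W A) ^ 2 ≤ 4 := by
    have e5 : ∑ A ∈ W.powerset, (pw θ W A + pw θ' W A) ^ 2 ≤
        ∑ A ∈ W.powerset, (2 * (pw θ W A) ^ 2 + 2 * (pw θ' W A) ^ 2) := by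
      refine Finset.sum_le_sum fun A _ => ?_
      nlinarith [sq_nonneg (pw θ W A - pw θ' W A)]
    rw [Finset.sum_add_distrib, ← Finset.mul_sum, ← Finset.mul_sum, pw_sq_sum, pw_sq_sum] at e5
    linarith
  set D : ℝ := ∑ x ∈ W, (θ x - θ' x) ^ 2
  have hD : 0 ≤ D := Finset.sum_nonneg fun x _ => sq_nonneg _
  have e6 : (∑ A ∈ W.powerset, |pw θ W A - pw θ' W A| * (pw θ W A + pw θ' W A)) ^ 2 ≤ D * 4 := by
    refine hCS.trans ?_
    exact mul_le_mul e1 e4 (Finset.sum_nonneg fun _ _ => sq_nonneg _) hD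
  have e7 : (2 * Real.sqrt D) ^ 2 = D * 4 := by
    rw [mul_pow, Real.sq_sqrt hD]
    ring
  rw [← e7] at e6
  exact (abs_le_of_sq_le_sq' e6 (by positivity)).2

theorem pm_enlarge (θ : X → ℝ) {W W' : Finset X} (h : W ⊆ W') (h0 : ∀ x ∈ W', x ∉ W → θ x = 0) :
    pm θ W' = pm θ W := by
  classical
  ext A
  rw [pm_apply, pm_apply]
  by_cases hA : A ⊆ W
  · rw [if_pos (Finset.mem_powerset.mpr (hA.trans h)), if_pos (Finset.mem_powerset.mpr hA)]
    congr 1
    rw [pw, pw]
    congr 1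
    symm
    refine Finset.prod_subset (Finset.sdiff_subset_sdiff h subset_rfl) ?_
    intro x hx hx'
    have h1 := Finset.mem_sdiff.mp hx
    have h2 : x ∉ W := fun h3 => hx' (Finset.mem_sdiff.mpr ⟨h3, h1.2⟩)
    rw [h0 x h1.1 h2, Real.cos_zero]
  · rw [if_neg (fun h1 => hA (Finset.mem_powerset.mp h1))]
    split_ifs with h1
    · obtain ⟨x, hx, hx'⟩ := Finset.not_subset.mp hA
      rw [Finset.mem_powerset] at h1
      have h2 : pw θ W' A = 0 := by
        rw [pw, Finset.prod_eq_zero hx, zero_mul]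
        rw [h0 x (h1 hx) hx', Real.sin_zero]
      rw [h2]
      ring
    · rfl

/-- Points with parameter `π / 2` belong to almost every set. -/
theorem pm_mem (θ : X → ℝ) {W A : Finset X} {x : X} (hx : x ∈ W) (h : θ x = Real.pi / 2)
    (hA : pm θ W A ≠ 0) : x ∈ A := by
  classical
  by_contra hcon
  apply hA
  rw [pm_apply]
  split_ifs with h1
  · have h2 : pw θ W A = 0 := by
      rw [pw, Finset.prod_eq_zero (s := W \ A) (Finset.mem_sdiff.mpr ⟨hx, hcon⟩), mul_zero]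
      rw [h, Real.cos_pi_div_two]
    rw [h2]
    ring
  · rfl

end Pool.Agent.H829.EG
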