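import Mathlib

/-!
# Groups of automorphisms of spherically homogeneous rooted trees

The vertices of level `n` are the words `x 0, …, x (n - 1)` with `x i` in `α i`; the boundary is
the product of the sets `α n`. The sets `α n` may be infinite.
-/

namespace Pool.Agent.H829.EG

universe u v

/-- `G` acts on the boundary of the tree by automorphisms of the tree: the first `n` letters of
`g • x` only depend on the first `n` letters of `x`. -/
class TreeAction (G : Type u) (α : ℕ → Type v) [Group G] [MulAction G (∀ n, α n)] : Prop where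
  agree : ∀ (g : G) (n : ℕ) (x y : ∀ n, α n), (∀ i < n, x i = y i) → ∀ i < n, (g • x) i = (g • y) i

variable (G : Type u) (α : ℕ → Type v) [Group G] [MulAction G (∀ n, α n)]

/-- The elements of `G` that fix all the vertices of level `n`. -/
def levelStab (n : ℕ) : Subgroup G where
  carrier := {g | ∀ x : ∀ n, α n, ∀ i < n, (g • x) i = x i}
  one_mem' := fun x i _ => by rw [one_smul]
  mul_mem' := fun {g h} hg hh x i hi => by rw [mul_smul, hg _ i hi, hh x i hi]
  inv_mem' := fun {g} hg x i hi => by
    have h := hg (g⁻¹ • x) i hi
    rw [smul_inv_smul] at h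
    exact h.symm

instance levelStab_normal [TreeAction G α] (n : ℕ) : (levelStab G α n).Normal where
  conj_mem := fun g hg h x i hi => by
    have h1 : ∀ j < n, (g • (h⁻¹ • x)) j = (h⁻¹ • x) j := fun j hj => hg _ j hj
    have h2 := TreeAction.agree h n _ _ h1 i hi
    rw [smul_inv_smul] at h2
    rw [mul_smul, mul_smul]
    exact h2

variable {α}

/-- The elements of the stabiliser of `x` that act trivially on a neighbourhood of `x`. -/
def germKernel [TreeAction G α] (x : ∀ n, α n) : Subgroup (MulAction.stabilizer G x) where
  carrier := {g | ∃ n : ℕ, ∀ y : ∀ n, α n, (∀ i < n, y i = x i) → (g : G) • y = y}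
  one_mem' := ⟨0, fun y _ => by rw [Subgroup.coe_one, one_smul]⟩
  mul_mem' := by
    rintro g h ⟨n, hn⟩ ⟨m, hm⟩
    refine ⟨max n m, fun y hy => ?_⟩
    rw [Subgroup.coe_mul, mul_smul, hm y fun i hi => hy i (lt_max_of_lt_right hi),
      hn y fun i hi => hy i (lt_max_of_lt_left hi)]
  inv_mem' := by
    rintro g ⟨n, hn⟩
    refine ⟨n, fun y hy => ?_⟩
    rw [Subgroup.coe_inv, inv_smul_eq_iff, hn y hy]

instance germKernel_normal [TreeAction G α] (x : ∀ n, α n) : (germKernel G x).Normal where
  conj_mem := by
    rintro g ⟨n, hn⟩ h
    refine ⟨n, fun y hy => ?_⟩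
    have h1 : ∀ i < n, ((h⁻¹ : MulAction.stabilizer G x) • y) i = x i := by
      intro i hi
      have h2 := TreeAction.agree ((h⁻¹ : MulAction.stabilizer G x) : G) n y x hy i hi
      rw [(h⁻¹).2] at h2
      exact h2
    have h3 := hn _ h1
    rw [Subgroup.coe_mul, Subgroup.coe_mul, mul_smul, mul_smul]
    have h4 : ((g : G) • ((h⁻¹ : MulAction.stabilizer G x) : G) • y) =
        ((h⁻¹ : MulAction.stabilizer G x) : G) • y := h3
    rw [h4, Subgroup.coe_inv, smul_inv_smul]

/-- The group of germs at the boundary point `x` of the elements of `G` that fix `x`. -/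
abbrev GermGroup [TreeAction G α] (x : ∀ n, α n) : Type u :=
  MulAction.stabilizer G x ⧸ germKernel G x

variable {G}

/-- The vertices of level `n` at which the section of `g` is not trivial: the words `v` of length
`n` such that `g` changes some letter behind `v` of some boundary point that starts with `v`. -/
def activeVertices (g : G) (n : ℕ) : Set (∀ i : Fin n, α i) :=
  {v | ∃ x : ∀ n, α n, (∀ i : Fin n, x i = v i) ∧ ∃ i, n ≤ i ∧ (g • x) i ≠ x i}

variable (G α)

/-- Bounded activity: for every finite subset `S` of `G` there is a number `C` such that for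
infinitely many levels `n` every element of `S` has at most `C` non-trivial sections on the
level `n`. -/
def BoundedActivity : Prop :=
  ∀ S : Finset G, ∃ C : ℕ, ∀ N : ℕ, ∃ n, N ≤ n ∧ ∀ s ∈ S, (activeVertices (α := α) s n).encard ≤ C

end Pool.Agent.H829.EG
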