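import Pool.Agent.H829.EG.Rec
import Pool.Agent.H829.EG.TreeDefs

/-!
# Groups of tree automorphisms of bounded activity: the tail subgroupoid
-/

namespace Pool.Agent.H829.EG

open Pool.Agent.N506.EX

universe u v

section

variable {G : Type u} {α : ℕ → Type v} [Group G] [MulAction G (∀ n, α n)]

/-- `g` has a trivial section at the prefix of length `n` of `x`. -/
def Reg (g : G) (n : ℕ) (x : ∀ n, α n) : Prop :=
  ∀ y : ∀ n, α n, (∀ i < n, y i = x i) → ∀ i, n ≤ i → (g • y) i = y i

theorem Reg.mono {g : G} {n m : ℕ} {x : ∀ n, α n} (h : Reg g n x) (hnm : n ≤ m) : Reg g m x :=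
  fun y hy i hi => h y (fun j hj => hy j (hj.trans_le hnm)) i (hnm.trans hi)

theorem Reg.congr {g : G} {n : ℕ} {x y : ∀ n, α n} (h : Reg g n x) (hxy : ∀ i < n, y i = x i) :
    Reg g n y :=
  fun z hz i hi => h z (fun j hj => (hz j hj).trans (hxy j hj)) i hi

theorem reg_one (n : ℕ) (x : ∀ n, α n) : Reg (1 : G) n x := fun y _ i _ => by rw [one_smul]

theorem Reg.inv [TreeAction G α] {g : G} {n : ℕ} {x : ∀ n, α n} (h : Reg g n x) :
    Reg g⁻¹ n (g • x) := by
  intro z hz i hi
  have h1 : ∀ j < n, (g⁻¹ • z) j = x j := by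
    intro j hj
    have := TreeAction.agree g⁻¹ n z (g • x) hz j hj
    rwa [inv_smul_smul] at this
  have h2 := h _ h1 i hi
  rw [smul_inv_smul] at h2
  exact h2.symm

theorem Reg.mul [TreeAction G α] {g h : G} {n : ℕ} {x : ∀ n, α n} (hh : Reg h n x)
    (hg : Reg g n (h • x)) : Reg (g * h) n x := by
  intro z hz i hi
  have h1 : ∀ j < n, (h • z) j = (h • x) j := TreeAction.agree h n z x hz
  rw [mul_smul, hg _ h1 i hi, hh z hz i hi]

/-- The prefix of length `n`. -/
def pre (α : ℕ → Type v) (n : ℕ) (x : (n : ℕ) → α n) : (i : Fin n) → α i.1 := fun i => x i.1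

/-- The prefix of length `n` of a word of length `m`. -/
def res (α : ℕ → Type v) {n m : ℕ} (h : n ≤ m) (v : (i : Fin m) → α i.1) : (i : Fin n) → α i.1 :=
  fun i => v ⟨i.1, i.2.trans_le h⟩

theorem notMem_active {g : G} {n : ℕ} {x : ∀ n, α n} (h : ¬ Reg g n x) :
    pre α n x ∈ activeVertices (α := α) g n := by
  simp only [Reg, not_forall] at h
  obtain ⟨y, hy, i, hi, hne⟩ := h
  exact ⟨y, fun j => hy j j.2, i, hi, hne⟩

/-- The singular points of `g`. -/
def Sing (g : G) : Set (∀ n, α n) := {x | ∀ n, ¬ Reg g n x}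

theorem sing_finite (hb : BoundedActivity G α) (g : G) :
    (Sing (α := α) g).Finite := by
  classical
  by_contra hinf
  obtain ⟨C, hC⟩ := hb {g}
  obtain ⟨T, hT, hTc⟩ := Set.Infinite.exists_subset_card_eq hinf (C + 1)
  -- separate the points of T
  have hsep : ∃ N, ∀ x ∈ T, ∀ y ∈ T, (∀ i < N, x i = y i) → x = y := by
    have h1 : ∀ p : (∀ n, α n) × (∀ n, α n), ∃ N, (∀ i < N, p.1 i = p.2 i) → p.1 = p.2 := by
      intro p
      by_cases h : p.1 = p.2
      · exact ⟨0, fun _ => h⟩
      · obtain ⟨i, hi⟩ := Function.ne_iff.mp h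
        exact ⟨i + 1, fun h2 => absurd (h2 i (Nat.lt_succ_self i)) hi⟩
    choose f hf using h1
    refine ⟨(T ×ˢ T).sup f, fun x hx y hy hxy => hf (x, y) fun i hi => hxy i ?_⟩
    exact hi.trans_le (Finset.le_sup (f := f) (Finset.mk_mem_product hx hy))
  obtain ⟨N, hN⟩ := hsep
  obtain ⟨n, hn, h1⟩ := hC N
  have h2 := h1 g (Finset.mem_singleton_self g)
  have h3 : Set.InjOn (pre α n) T := by
    intro x hx y hy hxy
    refine hN x hx y hy fun i hi => ?_
    exact congrFun hxy ⟨i, hi.trans_le hn⟩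
  have h4 : pre α n '' T ⊆ activeVertices (α := α) g n := by
    rintro _ ⟨x, hx, rfl⟩
    exact notMem_active (hT hx n)
  have h5 := Set.encard_le_encard h4
  rw [h3.encard_image, Set.encard_coe_eq_coe_finsetCard, hTc] at h5
  have h6 := h5.trans h2
  have h7 : ((C + 1 : ℕ) : ℕ∞) ≤ (C : ℕ∞) := h6
  rw [Nat.cast_le] at h7
  omega

end

section

variable (G : Type u) (α : ℕ → Type v) [Group G] [MulAction G (∀ n, α n)] [TreeAction G α]

/-- The tail subgroupoid. -/
def tailGpd (hb : BoundedActivity G α) : CofiniteSubgroupoid G (∀ n, α n) where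
  Mem g x := ∃ n, Reg g n x
  one x := ⟨0, reg_one 0 x⟩
  inv g x := fun ⟨n, h⟩ => ⟨n, h.inv⟩
  mul g h x := fun ⟨n, hn⟩ ⟨m, hm⟩ =>
    ⟨max n m, (hn.mono (le_max_left _ _)).mul (hm.mono (le_max_right _ _))⟩
  cofinite g := by
    refine (sing_finite (α := α) hb g).subset ?_
    intro x hx n hn
    exact hx ⟨n, hn⟩

/-- The elements all of whose sections on the level `n` are trivial. -/
def Kn (n : ℕ) : Subgroup G where
  carrier := {g | ∀ x : ∀ n, α n, Reg g n x}
  one_mem' := fun x => reg_one n x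
  mul_mem' := fun {g h} hg hh x => (hh x).mul (hg _)
  inv_mem' := fun {g} hg x => by
    have := (hg (g⁻¹ • x)).inv
    rwa [smul_inv_smul] at this

variable {G α}

theorem Kn_mono {n m : ℕ} (h : n ≤ m) : Kn G α n ≤ Kn G α m := fun _ hg x => (hg x).mono h

theorem Kn_ex [FaithfulSMul G (∀ n, α n)] (n : ℕ) (hlev : Ex (G ⧸ levelStab G α n)) :
    Ex (Kn G α n) := by
  refine Ex.of_injective hlev ((QuotientGroup.mk' (levelStab G α n)).comp (Kn G α n).subtype) ?_
  rw [injective_iff_map_eq_one]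
  rintro ⟨g, hg⟩ h
  have h1 : g ∈ levelStab G α n := (QuotientGroup.eq_one_iff g).mp h
  apply Subtype.ext
  refine FaithfulSMul.eq_of_smul_eq_smul (α := ∀ n, α n) fun x => ?_
  show g • x = (1 : G) • x
  rw [one_smul]
  ext i
  rcases lt_or_ge i n with hi | hi
  · exact h1 x i hi
  · exact hg x x (fun _ _ => rfl) i hi

/-- An element without singular points belongs to some `Kn`. -/
theorem exists_Kn (hb : BoundedActivity G α) (g : G) (hg : ∀ x : ∀ n, α n, ∃ n, Reg g n x) :
    ∃ n, g ∈ Kn G α n := by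
  classical
  by_contra hcon
  push Not at hcon
  have hne : ∀ n, ∃ x : ∀ n, α n, ¬ Reg g n x := by
    intro n
    have := hcon n
    by_contra h
    push Not at h
    exact this h
  obtain ⟨C, hC⟩ := hb {g}
  choose f hf1 hf2 using hC
  -- levels
  let φ : ℕ → ℕ := fun k => Nat.rec (f 0) (fun _ r => f (r + 1)) k
  have hφ : ∀ k, φ k < φ (k + 1) := fun k => Nat.lt_of_succ_le (hf1 (φ k + 1))
  have hφm : StrictMono φ := strictMono_nat_of_lt_succ hφ
  have hφC : ∀ k, (activeVertices (α := α) g (φ k)).encard ≤ C := by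
    intro k
    cases k with
    | zero => exact hf2 0 g (Finset.mem_singleton_self g)
    | succ k => exact hf2 _ g (Finset.mem_singleton_self g)
  let A : ℕ → Type v := fun k => {v : (i : Fin (φ k)) → α i.1 // ∃ x : (n : ℕ) → α n,
    pre α (φ k) x = v ∧ ¬ Reg g (φ k) x}
  have hAfin : ∀ k, Finite (A k) := by
    intro k
    have h1 : (activeVertices (α := α) g (φ k)).Finite := by
      rw [← Set.encard_lt_top_iff]
      exact (hφC k).trans_lt (ENat.natCast_lt_top C)
    refine Set.Finite.subset h1 ?_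
    rintro v ⟨x, hx, hx'⟩
    rw [← hx]
    exact notMem_active hx'
  have hAne : ∀ k, Nonempty (A k) := by
    intro k
    obtain ⟨x, hx⟩ := hne (φ k)
    exact ⟨⟨pre α (φ k) x, x, rfl, hx⟩⟩
  have hpr : ∀ {i j : ℕ} (hij : i ≤ j), ∀ a : A j, ∃ x : (n : ℕ) → α n,
      pre α (φ i) x = res α (hφm.monotone hij) a.1 ∧ ¬ Reg g (φ i) x := by
    rintro i j hij ⟨v, x, hx, hx'⟩
    exact ⟨x, congrArg (res α (hφm.monotone hij)) hx, fun h => hx' (h.mono (hφm.monotone hij))⟩
  obtain ⟨F, hF⟩ := @exists_seq_forall_proj_of_forall_finite A (hAfin 0) hAne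
    (fun {i j} hij a => ⟨res α (hφm.monotone hij) a.1, hpr hij a⟩)
    (fun i a => rfl) (fun i j k hij hjk a => rfl) (fun i a => by
      have := hAfin (i + 1)
      exact Set.toFinite _)
  -- the limit point
  have hφge : ∀ k, k ≤ φ k := fun k => hφm.id_le k
  let x : (n : ℕ) → α n := fun n => (F (n + 1)).1 ⟨n, (Nat.lt_succ_self n).trans_le (hφge (n + 1))⟩
  have hxF : ∀ k (i : Fin (φ k)), x i.1 = (F k).1 i := by
    intro k i
    rcases le_total (i.1 + 1) k with h | h
    · have h1 := congrArg Subtype.val (hF h)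
      have h2 := congrFun h1 ⟨i.1, (Nat.lt_succ_self i.1).trans_le (hφge (i.1 + 1))⟩
      exact h2.symm
    · have h1 := congrArg Subtype.val (hF h)
      have h2 := congrFun h1 i
      exact h2
  obtain ⟨n, hn⟩ := hg x
  obtain ⟨y, hy, hy'⟩ := (F n).2
  refine hy' ((hn.mono (hφge n)).congr fun i hi => ?_)
  rw [hxF n ⟨i, hi⟩]
  exact congrFun hy ⟨i, hi⟩

theorem Kall_ex [FaithfulSMul G (∀ n, α n)] (hb : BoundedActivity G α)
    (hlev : ∀ n, Ex (G ⧸ levelStab G α n)) (Q : Subgroup G)
    (hQ : ∀ g ∈ Q, ∀ x : ∀ n, α n, ∃ n, Reg g n x) : Ex Q := by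
  classical
  refine Ex.of_fg ?_
  intro H hH
  obtain ⟨T, hT⟩ := hH
  have h1 : ∀ t : Q, ∃ n, (t : G) ∈ Kn G α n := fun t => exists_Kn hb t (hQ t t.2)
  choose f hf using h1
  have h2 : ∀ h ∈ H, (h : G) ∈ Kn G α (T.sup f) := by
    intro h hh
    rw [← hT] at hh
    induction hh using Subgroup.closure_induction with
    | mem x hx => exact Kn_mono (Finset.le_sup (f := f) hx) (hf x)
    | one => exact Subgroup.one_mem _
    | mul x y _ _ hx hy => exact Subgroup.mul_mem _ hx hy
    | inv x _ hx => exact Subgroup.inv_mem _ hx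
  let j : H →* Kn G α (T.sup f) :=
    { toFun := fun h => ⟨(h : Q), h2 h h.2⟩
      map_one' := rfl
      map_mul' := fun _ _ => rfl }
  refine Ex.of_injective (Kn_ex _ (hlev _)) j ?_
  intro a b hab
  have h3 : ((a : Q) : G) = ((b : Q) : G) :=
    congrArg (fun z : Kn G α (T.sup f) => (z : G)) hab
  exact Subtype.ext (Subtype.ext h3)

/-- The subgroups whose elements fix the points of `E` and are regular off `E`. -/
theorem fix_ex [FaithfulSMul G (∀ n, α n)] (hb : BoundedActivity G α)
    (hlev : ∀ n, Ex (G ⧸ levelStab G α n)) (hgerm : ∀ x : ∀ n, α n, Ex (GermGroup G x))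
    (E : Finset (∀ n, α n)) : ∀ (Q : Subgroup G), (∀ g ∈ Q, ∀ x ∈ E, g • x = x) →
    (∀ g ∈ Q, ∀ x, x ∉ E → ∃ n, Reg g n x) → Ex Q := by
  classical
  induction E using Finset.induction_on with
  | empty =>
    intro Q _ hQ
    exact Kall_ex hb hlev Q fun g hg x => hQ g hg x (Finset.notMem_empty x)
  | insert x E hx ih =>
    intro Q hQ1 hQ2
    let i : Q →* MulAction.stabilizer G x :=
      Subgroup.inclusion fun g hg => hQ1 g hg x (Finset.mem_insert_self _ _)
    let q : Q →* GermGroup G x := (QuotientGroup.mk' (germKernel G x)).comp i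
    refine Ex.ext q (hgerm x) ?_
    have h1 : Ex (q.ker.map Q.subtype) := by
      refine ih _ ?_ ?_
      · rintro g ⟨g', -, rfl⟩ y hy
        exact hQ1 g' g'.2 y (Finset.mem_insert_of_mem hy)
      · rintro g ⟨g', hg', rfl⟩ y hy
        by_cases hyx : y = x
        · subst hyx
          have h2 : i g' ∈ germKernel G y := (QuotientGroup.eq_one_iff _).mp hg'
          obtain ⟨n, hn⟩ := h2
          refine ⟨n, fun z hz j _ => ?_⟩
          have h3 : (g' : G) • z = z := hn z hz
          show ((g' : G) • z) j = z j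
          rw [h3]
        · refine hQ2 g' g'.2 y fun h => ?_
          rcases Finset.mem_insert.mp h with h | h
          · exact hyx h
          · exact hy h
    refine Ex.of_injective h1 (q.ker.equivMapOfInjective Q.subtype Q.subtype_injective).toMonoidHom ?_
    exact (q.ker.equivMapOfInjective Q.subtype Q.subtype_injective).injective

theorem off_ex [FaithfulSMul G (∀ n, α n)] (hb : BoundedActivity G α)
    (hlev : ∀ n, Ex (G ⧸ levelStab G α n)) (hgerm : ∀ x : ∀ n, α n, Ex (GermGroup G x))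
    (E : Finset (∀ n, α n)) : Ex ((tailGpd G α hb).offSubgroup E) := by
  classical
  set P := (tailGpd G α hb).offSubgroup E with hP
  have hPE : ∀ g : P, ∀ x, (g : G) • x ∈ E ↔ x ∈ E := fun g x => g.2.1 x
  let q : P →* Equiv.Perm E :=
    { toFun := fun g =>
        { toFun := fun x => ⟨(g : G) • x.1, (hPE g x.1).mpr x.2⟩
          invFun := fun x => ⟨(g : G)⁻¹ • x.1, by
            rw [← hPE g, smul_inv_smul]
            exact x.2⟩
          left_inv := fun x => Subtype.ext (inv_smul_smul _ _)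
          right_inv := fun x => Subtype.ext (smul_inv_smul _ _) }
      map_one' := by
        ext x : 2
        exact one_smul G x.1
      map_mul' := fun g h => by
        ext x : 2
        exact mul_smul (g : G) (h : G) x.1 }
  refine Ex.ext q Ex.of_finite ?_
  have h1 : Ex (q.ker.map P.subtype) := by
    refine fix_ex hb hlev hgerm E _ ?_ ?_
    · rintro g ⟨g', hg', rfl⟩ x hx
      have h2 : q g' = 1 := hg'
      exact congrArg (fun e : Equiv.Perm E => (e ⟨x, hx⟩ : ∀ n, α n)) h2
    · rintro g ⟨g', hg', rfl⟩ x hx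
      exact g'.2.2 x hx
  refine Ex.of_injective h1 (q.ker.equivMapOfInjective P.subtype P.subtype_injective).toMonoidHom ?_
  exact (q.ker.equivMapOfInjective P.subtype P.subtype_injective).injective

end

end Pool.Agent.H829.EG
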