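import Pool.Agent.H829.EG.Tree

/-!
# Groups of tree automorphisms of bounded activity: the action on the boundary
-/

namespace Pool.Agent.H829.EG

open Pool.Agent.N506.EX

universe u v

theorem extExact_of_quotient {G : Type u} {V : Type v} [Group G] [MulAction G V] (N : Subgroup G)
    [N.Normal] (hN : ∀ g ∈ N, ∀ x : V, g • x = x) (h : IsExact (G ⧸ N)) :
    ExtensivelyExact G V := by
  classical
  letI : MulAction (G ⧸ N) V := MulAction.compHom V (QuotientGroup.lift N (MulAction.toPermHom G V)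
    (by
      intro g hg
      ext x
      exact hN g hg x))
  have key : ∀ (g : G) (x : V), (QuotientGroup.mk g : G ⧸ N) • x = g • x := fun g x => rfl
  intro S E₀ ε hε
  obtain ⟨T, m, h0, h1, h2, h3⟩ := IsExact.extensivelyExact (X := V) h
    (S.image fun g => (QuotientGroup.mk g : G ⧸ N)) E₀ ε hε
  refine ⟨T, fun g => m (QuotientGroup.mk g), fun g => h0 _, fun g => h1 _, fun g => h2 _, ?_⟩
  intro g s hs
  exact h3 (QuotientGroup.mk g) (QuotientGroup.mk s) (Finset.mem_image_of_mem _ hs)

section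

/-- Equality of the prefixes of length `n`. -/
def prefSetoid (α : ℕ → Type v) (n : ℕ) : Setoid ((n : ℕ) → α n) where
  r x y := ∀ i < n, x i = y i
  iseqv := ⟨fun _ _ _ => rfl, fun h i hi => (h i hi).symm, fun h h' i hi => (h i hi).trans (h' i hi)⟩

/-- The vertices of level `n`. -/
def PV (α : ℕ → Type v) (n : ℕ) : Type v := Quotient (prefSetoid α n)

/-- The vertex of level `n` below a boundary point. -/
def pv (α : ℕ → Type v) (n : ℕ) (x : (n : ℕ) → α n) : PV α n := Quotient.mk (prefSetoid α n) x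

theorem pv_eq {α : ℕ → Type v} {n : ℕ} {x y : (n : ℕ) → α n} :
    pv α n x = pv α n y ↔ ∀ i < n, x i = y i :=
  ⟨fun h => Quotient.exact (s := prefSetoid α n) h, fun h => Quotient.sound (s := prefSetoid α n) h⟩

variable {G : Type u} {α : ℕ → Type v} [Group G] [MulAction G ((n : ℕ) → α n)]
  [hT : TreeAction G α]

instance (n : ℕ) : MulAction G (PV α n) where
  smul g := Quotient.map (fun x => g • x) (fun x y h => hT.agree g n x y h)
  one_smul := by
    rintro ⟨x⟩
    show Quotient.mk (prefSetoid α n) _ = Quotient.mk (prefSetoid α n) _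
    simp only [one_smul]
  mul_smul := by
    rintro g h ⟨x⟩
    show Quotient.mk (prefSetoid α n) _ = Quotient.mk (prefSetoid α n) _
    simp only [mul_smul]

theorem pv_smul (n : ℕ) (g : G) (x : (n : ℕ) → α n) : pv α n (g • x) = g • pv α n x := rfl

theorem pv_surj (n : ℕ) (v : PV α n) : ∃ x, pv α n x = v := Quotient.exists_rep v

theorem levelExact (n : ℕ) (h : IsExact (G ⧸ levelStab G α n)) : ExtensivelyExact G (PV α n) := by
  refine extExact_of_quotient (levelStab G α n) ?_ h
  intro g hg v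
  obtain ⟨x, rfl⟩ := pv_surj n v
  rw [← pv_smul, pv_eq]
  exact hg x

open scoped Classical in
/-- Replace the first `n` letters. -/
noncomputable def glue (n : ℕ) (x y : (n : ℕ) → α n) : (n : ℕ) → α n :=
  fun i => if i < n then x i else y i

open scoped Classical in
/-- Replace the first `n` letters. -/
noncomputable def glue' (n : ℕ) (x : (i : Fin n) → α i.1) (y : (n : ℕ) → α n) : (n : ℕ) → α n :=
  fun i => if h : i < n then x ⟨i, h⟩ else y i

/-- The points whose tail behind level `n` is the tail of a point of `T₀`. -/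
def Fs (T₀ : Finset ((n : ℕ) → α n)) (n : ℕ) : Set ((n : ℕ) → α n) :=
  {x | ∃ y ∈ T₀, ∀ i, n ≤ i → x i = y i}

theorem Fs_mono (T₀ : Finset ((n : ℕ) → α n)) {n m : ℕ} (h : n ≤ m) : Fs T₀ n ⊆ Fs T₀ m := by
  rintro x ⟨y, hy, hxy⟩
  exact ⟨y, hy, fun i hi => hxy i (h.trans hi)⟩

/-- The points of `Fs T₀ n` that leave it under `s`. -/
def Bad (T₀ : Finset ((n : ℕ) → α n)) (s : G) (n : ℕ) : Set ((n : ℕ) → α n) :=
  {x | x ∈ Fs T₀ n ∧ s • x ∉ Fs T₀ n}

omit hT in
theorem bad_encard (T₀ : Finset ((n : ℕ) → α n)) (s : G) (n C : ℕ)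
    (h : (activeVertices (α := α) s n).encard ≤ C) :
    (Bad T₀ s n).encard ≤ ((C * T₀.card : ℕ) : ℕ∞) := by
  classical
  have h1 : Bad T₀ s n ⊆ (fun p : ((i : Fin n) → α i.1) × ((n : ℕ) → α n) => glue' n p.1 p.2) ''
      (activeVertices (α := α) s n ×ˢ (T₀ : Set ((n : ℕ) → α n))) := by
    rintro x ⟨⟨y, hy, hxy⟩, hx⟩
    refine ⟨(pre α n x, y), ⟨notMem_active fun hreg => hx ⟨y, hy, fun i hi => ?_⟩, hy⟩, ?_⟩
    · rw [hreg x (fun _ _ => rfl) i hi]
      exact hxy i hi
    · funext i
      simp only [glue']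
      split_ifs with hi
      · rfl
      · exact (hxy i (not_lt.mp hi)).symm
  refine (Set.encard_le_encard h1).trans ((Set.encard_image_le _ _).trans ?_)
  rw [Set.encard_prod, Set.encard_coe_eq_coe_finsetCard, Nat.cast_mul]
  exact mul_le_mul_left h _

end

end Pool.Agent.H829.EG
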